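import Pool.Agent.Helper90_Q2N.Base

/-! # Statements of the steps of type (-,-) -/

set_option autoImplicit false

open Module

namespace Pool.Agent.Q2N.H90

variable {F K X A : Type} [Field F] [Field K] [Algebra F K] [Ring A] [Algebra F A]
variable {Q : Poles F K X}

/-- `V` contains `1`, the sea element `p` of order exactly `e` at the first end and at most `q` at
the second, and elements of every order modulo `e`. -/
structure Sea (E E' : End1 Q A) (V : Submodule F A) (p : A) (e q : ℕ) : Prop where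
  fd : FiniteDimensional F V
  one : (1 : A) ∈ V
  pV : p ∈ V
  e1 : 1 ≤ e
  q1 : 1 ≤ q
  lev : E.Lev p e
  fil : p ∈ E'.Fil q
  res : ∀ r, r < e → ∃ x ∈ V, ∃ l, E.Lev x l ∧ l % e = r

/-- Locality: leading spaces of the words `p ^ a * X ^ N * p ^ b * c_r`. -/
def LocC (E E' : End1 Q A) (V : Submodule F A) (_p : A) (e q : ℕ) : Prop :=
  ∃ P R C J : ℕ, V ≤ E.Fil P ∧ V ≤ E'.Fil R ∧
    ∀ N z n w s : ℕ, 1 ≤ N → e ∣ N → 1 ≤ z → 1 ≤ n → 2 ≤ finrank F (E.L n (V ^ z)) →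
      N * n + 2 * C * z + J < e * w →
      ∀ r, r < e → ∃ l, l ≤ P ∧ l % e = r ∧
        ∀ m Z, q * s + (N * R + R + q * N * P) * z ≤ m → s + (N + N * P + 1) * z ≤ Z →
          1 + (s / w + 1) * (N * (finrank F (E.L n (V ^ z)) - 1)) ≤
            finrank F (E.L (e * s + N * n + l) (V ^ Z ⊓ E'.Fil m))

def LocStmt : Prop :=
  ∀ (F K X A : Type) [Field F] [Field K] [Algebra F K] [Ring A] [Algebra F A]
    (Q : Poles F K X) (E E' : End1 Q A) (V : Submodule F A) (p : A) (e q : ℕ),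
    Sea E E' V p e q → LocC E E' V p e q

/-- Half a round: density at the first end becomes density at the second end. -/
def RoundC (E E' : End1 Q A) (V : Submodule F A) (e q : ℕ) : Prop :=
  ∀ η : ℝ, 0 < η → η < 1 → ∃ k Z1 : ℕ, 1 ≤ k ∧ ∀ z n : ℕ, ∀ ρ : ℝ, 1 ≤ z → 1 ≤ n → 0 < ρ →
    (Z1 : ℝ) ≤ ρ * z →
    1 + ρ * (n + η / 4 * z) ≤ (finrank F (E.L n (V ^ z)) : ℝ) →
    ρ * z ^ 2 / 2 ≤ (finrank F (V ^ (k * z) : Submodule F A) : ℝ) ∧
    ∃ n' : ℕ, 1 ≤ n' ∧
      1 + (1 - η) * ((e : ℝ) / q) ^ 2 * ρ * (n' + η / 4 * ((k * z : ℕ) : ℝ)) ≤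
        (finrank F (E'.L n' (V ^ (k * z))) : ℝ)

def RoundStmt : Prop :=
  ∀ (F K X A : Type) [Field F] [Field K] [Algebra F K] [Ring A] [Algebra F A]
    (Q : Poles F K X) (E E' : End1 Q A) (V : Submodule F A) (p : A) (e q : ℕ),
    Sea E E' V p e q → LocC E E' V p e q → RoundC E E' V e q

/-- GK dimension at most two, in the form of the frozen statement. -/
def GK2 (F A : Type) [Field F] [Ring A] [Algebra F A] : Prop :=
  ∀ V : Submodule F A, FiniteDimensional F V → (1 : Submodule F A) ≤ V → ∀ ε : ℝ, 0 < ε →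
    ∀ᶠ n : ℕ in Filter.atTop, (finrank F (V ^ n : Submodule F A) : ℝ) ≤ (n : ℝ) ^ ((2 : ℝ) + ε)

/-- The conclusion: an algebra with two pole ends that are not proportional has GK dimension
larger than two. -/
def MMStmt : Prop :=
  ∀ (F K X A : Type) [Field F] [Field K] [Algebra F K] [Ring A] [Algebra F A]
    (Q : Poles F K X) (E E' : End1 Q A) (a b : A) (i j : ℕ),
    1 ≤ i → 1 ≤ j → E.Lev a i → E.Lev b (i + 1) → E'.Lev a (j + 1) → E'.Lev b j →
    (∃ (x y : A) (n : ℕ), x ∈ E.Fil n ∧ y ∈ E.Fil n ∧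
      LinearIndependent F ![E.c n x, E.c n y]) →
    ¬ GK2 F A

/-- The iteration. -/
def IterStmt : Prop :=
  LocStmt → RoundStmt → MMStmt

end Pool.Agent.Q2N.H90
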