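import Pool.Agent.Helper90_Q2N.Iter
import Pool.Agent.Helper92_Q2N.Round

/-! # Type (-,-): the two-ended growth theorem -/

set_option autoImplicit false

namespace Pool.Agent.Q2N.H90

theorem mm : MMStmt := iter loc Pool.Agent.Q2N.H92.round

end Pool.Agent.Q2N.H90
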