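import Pool.Agent.Q2N.Stmts

/-!
# Type (-,-): the bridge from the ends of `K(y;σ)` to the abstract two-ended growth theorem
-/

set_option autoImplicit false

open Module

namespace Pool.Agent.Q2N.H90

open Pool.Agent.UW

variable {F K : Type} [Field F] [Field K] [Algebra F K]

/-- The poles of the functions. -/
def polesOf (hD : DimStmt) (S : Dat F K) : Poles F K S.X where
  pol f := {p | S.v p f < 0}
  fin := by
    intro f
    by_cases h : f = 0
    · subst h
      have : {p | S.v p (0 : K) < 0} = ∅ := by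
        ext p
        simp
      rw [this]
      exact Set.finite_empty
    · exact (S.fin f h).subset (fun p hp => ne_of_lt hp)
  pol_add := by
    intro f g p hp
    by_contra h
    rw [Set.mem_union, not_or] at h
    have h1 : 0 ≤ S.v p f := not_lt.mp h.1
    have h2 : 0 ≤ S.v p g := not_lt.mp h.2
    have h3 := (S.v p).map_add f g
    exact absurd hp (not_lt.mpr ((le_min h1 h2).trans h3))
  pol_mul := by
    intro f g p hp
    by_contra h
    rw [Set.mem_union, not_or] at h
    have h1 : 0 ≤ S.v p f := not_lt.mp h.1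
    have h2 : 0 ≤ S.v p g := not_lt.mp h.2
    have h3 := (S.v p).map_mul f g
    have h4 : 0 ≤ S.v p (f * g) := by
      rw [h3]
      exact add_nonneg h1 h2
    exact absurd hp (not_lt.mpr h4)
  pol_const := by
    intro c
    ext p
    simp only [Set.mem_ofPred_eq, Set.mem_empty_iff_false, iff_false, not_lt]
    by_cases h : c = 0
    · subst h
      simp
    · rw [S.v_const p c h]
  const_of := by
    intro f hf
    obtain ⟨c, hc⟩ := S.const f (by
      intro p
      by_contra h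
      have : p ∈ {p | S.v p f < 0} := not_le.mp h
      rw [hf] at this
      exact this)
    exact ⟨c, hc.symm⟩
  dim_mul := fun U W hU hW hU0 hW0 => hD F K S U W hU hW hU0 hW0

section End

variable {S : Dat F K} {D : Type} [DivisionRing D] [Algebra F D]

lemma chi_inj (E : EndOf S D) {x : D} (h : E.χ x = 0) : x = 0 := by
  exact (map_eq_zero_iff _ E.χ.injective).mp h

lemma chi_smul (E : EndOf S D) (a : F) (x : D) (n : ℤ) :
    (E.χ (a • x)).coeff n = a • (E.χ x).coeff n := by
  rw [Algebra.smul_def, map_mul, E.const, sgl_mul_coeff, zpow_zero, sub_zero, Algebra.smul_def]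
  rfl

lemma sinv_pow_const (S : Dat F K) (c : F) :
    (S.σ⁻¹ : RingAut K) (algebraMap F K c) = algebraMap F K c := S.inv.σ_const c

/-- the inverse automorphism as an algebra automorphism -/
noncomputable def phiOf (S : Dat F K) : K ≃ₐ[F] K :=
  AlgEquiv.ofRingEquiv (f := (S.σ⁻¹ : RingAut K)) (sinv_pow_const S)

lemma phiOf_pow (S : Dat F K) (n : ℕ) (f : K) :
    (phiOf S ^ n) f = ((S.σ : RingAut K) ^ (-(n : ℤ))) f := by
  induction n generalizing f with
  | zero => simp
  | succ n ih =>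
    rw [pow_succ, AlgEquiv.mul_apply, ih]
    have h1 : (phiOf S) f = ((S.σ : RingAut K) ^ (-1 : ℤ)) f := by
      rw [zpow_neg_one]
      rfl
    rw [h1, ← RingAut.mul_apply, ← zpow_add]
    congr 2
    push_cast
    ring

lemma mem_P_neg (E : EndOf S D) {x : D} {n : ℕ} (h : ∀ m : ℕ, n < m → (E.χ x).coeff (-(m : ℤ)) = 0) :
    E.χ x ∈ SkewLaurent.P K S.σ (-(n : ℤ)) := by
  intro i hi
  obtain ⟨m, hm⟩ : ∃ m : ℕ, i = -(m : ℤ) := ⟨(-i).toNat, by omega⟩
  rw [hm]
  exact h m (by omega)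

/-- one end of a subalgebra of type (-) -/
noncomputable def endOf (hD : DimStmt) (hB : BasewStmt) (hW : WinmStmt) (E : EndOf S D)
    (A : Subalgebra F D) (hN : Neg E A) : End1 (polesOf hD S) ↥A where
  c n :=
    { toFun := fun x => (E.χ (x : D)).coeff (-(n : ℤ))
      map_add' := by
        intro x y
        rw [Subalgebra.coe_add, map_add, SkewLaurent.coeff_add]
      map_smul' := by
        intro a x
        rw [Subalgebra.coe_smul, chi_smul, RingHom.id_apply] }
  phi := phiOf S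
  T := S.τ⁻¹
  pol_phi := by
    intro f x
    show S.v x ((S.σ⁻¹ : RingAut K) f) < 0 ↔ S.v ((S.τ⁻¹ : Equiv.Perm S.X) x) f < 0
    rw [show S.v x ((S.σ⁻¹ : RingAut K) f) = S.v ((S.τ⁻¹ : Equiv.Perm S.X) x) f from
      S.inv.v_σ x f]
  free := by
    intro n x hn h
    exact hn (S.inv.free x n h)
  bdd := by
    intro x
    obtain ⟨N, hN⟩ := (E.χ (x : D)).bdd
    refine ⟨(-N).toNat, ?_⟩
    intro m hm
    exact hN _ (by omega)
  inj := by
    intro x h
    have h1 : E.χ (x : D) ∈ SkewLaurent.P K S.σ 0 := by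
      have := mem_P_neg (n := 0) E (x := (x : D)) (fun m _ => h m)
      simpa using this
    obtain ⟨c, hc⟩ := hN x x.2 h1
    have h2 : (E.χ (x : D)).coeff (-((0 : ℕ) : ℤ)) = 0 := h 0
    rw [hc, E.const] at h2
    have h3 : algebraMap F K c = 0 := by
      simpa [sgl_coeff] using h2
    have h4 : c = 0 := (map_eq_zero_iff _ (algebraMap F K).injective).mp h3
    apply Subtype.ext
    rw [hc, h4, map_zero]
    rfl
  lev0 := by
    intro x h
    have h1 : E.χ (x : D) ∈ SkewLaurent.P K S.σ 0 := by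
      have := mem_P_neg (n := 0) E (x := (x : D)) (fun m hm => h m hm)
      simpa using this
    obtain ⟨c, hc⟩ := hN x x.2 h1
    exact ⟨c, Subtype.ext hc⟩
  c_one := by
    show (E.χ ((1 : ↥A) : D)).coeff (-((0 : ℕ) : ℤ)) = 1
    rw [OneMemClass.coe_one, map_one, SkewLaurent.coeff_one, if_pos (by simp)]
  c_one' := by
    intro m hm
    show (E.χ ((1 : ↥A) : D)).coeff (-(m : ℤ)) = 0
    rw [OneMemClass.coe_one, map_one, SkewLaurent.coeff_one, if_neg (by omega)]
  mul_bdd := by
    intro x y n m hx hy i hi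
    have h1 := mem_P_neg (n := n) E (x := (x : D)) (fun k hk => hx k hk)
    have h2 := mem_P_neg (n := m) E (x := (y : D)) (fun k hk => hy k hk)
    have h3 := SkewLaurent.mul_mem_P h1 h2
    rw [← map_mul] at h3
    exact h3 _ (by omega)
  mul_lead := by
    intro x y n m hx hy
    have h1 := mem_P_neg (n := n) E (x := (x : D)) (fun k hk => hx k hk)
    have h2 := mem_P_neg (n := m) E (x := (y : D)) (fun k hk => hy k hk)
    have h3 := SkewLaurent.coeff_mul_lead h1 h2
    rw [← map_mul] at h3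
    show (E.χ ((x : D) * (y : D))).coeff (-((n + m : ℕ) : ℤ)) =
      (E.χ (x : D)).coeff (-(n : ℤ)) * (phiOf S ^ n) ((E.χ (y : D)).coeff (-(m : ℤ)))
    rw [phiOf_pow, ← h3]
    congr 1
    push_cast
    ring
  win := by
    intro V hV
    have hfd : FiniteDimensional F (V.map A.val.toLinearMap : Submodule F D) := inferInstance
    obtain ⟨T, hT, C, h⟩ := hW hB F K S D E (V.map A.val.toLinearMap) hfd
    refine ⟨T, hT, C, ?_⟩
    intro z hz x hx n u hu
    have hx' : (x : D) ∈ (V.map A.val.toLinearMap) ^ z := by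
      rw [← Submodule.map_pow]
      exact ⟨x, hx, rfl⟩
    obtain ⟨t, ht, htT⟩ := h z hz _ hx' n u hu
    refine ⟨-t, ?_, ?_⟩
    · rw [abs_neg]
      exact_mod_cast ht
    · rw [inv_zpow, zpow_neg, inv_inv]
      exact htT

end End

/-- level of a nonzero element -/
lemma exists_lev {X B : Type} [Ring B] [Algebra F B] {Q : Poles F K X} (E : End1 Q B) (x : B)
    (hx : x ≠ 0) : ∃ n, E.Lev x n := by
  classical
  obtain ⟨n, hn⟩ := E.bdd x
  have hne : ∃ m, m ≤ n ∧ E.c m x ≠ 0 := by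
    by_contra h
    push Not at h
    apply hx
    apply E.inj
    intro m
    rcases Nat.lt_or_ge n m with h1 | h1
    · exact hn m h1
    · exact h m h1
  obtain ⟨m, hm, hm0⟩ := hne
  set S : Finset ℕ := (Finset.range (n + 1)).filter (fun k => E.c k x ≠ 0) with hS
  have hSne : S.Nonempty := ⟨m, by rw [hS, Finset.mem_filter, Finset.mem_range]; exact ⟨by omega, hm0⟩⟩
  refine ⟨S.max' hSne, ?_, ?_⟩
  · intro k hk
    by_contra h
    have hkn : k ≤ n := by
      by_contra h'
      exact h (hn k (by omega))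
    have hkS : k ∈ S := by
      rw [hS, Finset.mem_filter, Finset.mem_range]
      exact ⟨by omega, h⟩
    exact absurd (S.le_max' k hkS) (by omega)
  · exact (Finset.mem_filter.mp (show S.max' hSne ∈ (Finset.range (n + 1)).filter
      (fun k => E.c k x ≠ 0) from S.max'_mem hSne)).2

lemma gk2_of (S : Dat F K) (A : Subalgebra F (DD S.σ)) (h : GKle F A 2) : GK2 F ↥A := by
  intro V hV h1 ε hε
  have hfd : FiniteDimensional F (V.map A.val.toLinearMap : Submodule F (DD S.σ)) := inferInstance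
  have hle : V.map A.val.toLinearMap ≤ Subalgebra.toSubmodule A := by
    rintro _ ⟨x, _, rfl⟩
    exact x.2
  have h1' : (1 : Submodule F (DD S.σ)) ≤ V.map A.val.toLinearMap := by
    rw [Submodule.one_le]
    exact ⟨1, Submodule.one_le.mp h1, rfl⟩
  refine (h _ hle hfd h1' ε hε).mono ?_
  intro n hn
  have e : finrank F ((V.map A.val.toLinearMap) ^ n : Submodule F (DD S.σ)) =
      finrank F (V ^ n : Submodule F ↥A) := by
    rw [← Submodule.map_pow]
    exact (LinearEquiv.finrank_eq (Submodule.equivMapOfInjective _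
      (show Function.Injective A.val.toLinearMap from Subtype.val_injective) _)).symm
  rw [e] at hn
  exact hn

theorem minus : MinusStmt := by
  intro hMM hB hW hD F K _ _ _ S A hF hGK hN0 hNI
  set Q := polesOf hD S with hQ
  let E : End1 Q ↥A := endOf hD hB hW (end0 S) A hN0
  let E' : End1 Q ↥A := endOf (S := S.inv) hD hB hW (endI S) A hNI
  have hc : ∀ (n : ℕ) (x : ↥A), E.c n x = (ψ S.σ (x : DD S.σ)).coeff (-(n : ℤ)) := fun _ _ => rfl
  have hc' : ∀ (n : ℕ) (x : ↥A), E'.c n x = (ψ' S.σ (x : DD S.σ)).coeff (-(n : ℤ)) :=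
    fun _ _ => rfl
  -- y = a / b
  obtain ⟨a, haA, b, hbA, hb0, hab⟩ := hF (y S.σ)
  have hyb : a = mo S.σ 1 1 * b := by
    have : y S.σ * b = a := by rw [hab, mul_assoc, inv_mul_cancel₀ hb0, mul_one]
    exact this.symm
  have hyne : y S.σ ≠ 0 := y_ne_zero
  have ha0 : a ≠ 0 := by
    rw [hyb]
    exact mul_ne_zero hyne hb0
  have hca : ∀ n : ℕ, E.c n ⟨a, haA⟩ = S.σ (E.c (n + 1) ⟨b, hbA⟩) := by
    intro n
    rw [hc, hc]
    show (ψ S.σ a).coeff (-(n : ℤ)) = S.σ ((ψ S.σ b).coeff (-((n + 1 : ℕ) : ℤ)))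
    rw [hyb, ψ_mo_mul_coeff, one_mul, zpow_one]
    congr 2
    push_cast
    ring
  have hca' : ∀ n : ℕ, E'.c (n + 1) ⟨a, haA⟩ = S.σ (E'.c n ⟨b, hbA⟩) := by
    intro n
    rw [hc', hc']
    show (ψ' S.σ a).coeff (-((n + 1 : ℕ) : ℤ)) = S.σ ((ψ' S.σ b).coeff (-(n : ℤ)))
    rw [hyb, ψ'_mo_mul_coeff, one_mul, zpow_one]
    congr 2
    push_cast
    ring
  have hσ0 : ∀ f : K, S.σ f = 0 → f = 0 := fun f hf => (map_eq_zero_iff _ S.σ.injective).mp hf
  obtain ⟨i, hi⟩ := exists_lev E ⟨a, haA⟩ (fun h => ha0 (congrArg Subtype.val h))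
  obtain ⟨j, hj⟩ := exists_lev E' ⟨b, hbA⟩ (fun h => hb0 (congrArg Subtype.val h))
  have hib : E.Lev ⟨b, hbA⟩ (i + 1) := by
    refine ⟨?_, ?_⟩
    · intro m hm
      obtain ⟨k, rfl⟩ : ∃ k, m = k + 1 := ⟨m - 1, by omega⟩
      apply hσ0
      rw [← hca]
      exact hi.1 k (by omega)
    · intro h
      apply hi.2
      rw [hca, h, map_zero]
  have hja : E'.Lev ⟨a, haA⟩ (j + 1) := by
    refine ⟨?_, ?_⟩
    · intro m hm
      obtain ⟨k, rfl⟩ : ∃ k, m = k + 1 := ⟨m - 1, by omega⟩
      rw [hca', hj.1 k (by omega), map_zero]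
    · intro h
      rw [hca'] at h
      exact hj.2 (hσ0 _ h)
  have hconst : ∀ (c : F) (m : ℕ), 0 < m → E.c m (algebraMap F ↥A c) = 0 := by
    intro c m hm
    rw [Algebra.algebraMap_eq_smul_one, map_smul, E.c_one' m hm, smul_zero]
  have hconst' : ∀ (c : F) (m : ℕ), 0 < m → E'.c m (algebraMap F ↥A c) = 0 := by
    intro c m hm
    rw [Algebra.algebraMap_eq_smul_one, map_smul, E'.c_one' m hm, smul_zero]
  have hi1 : 1 ≤ i := by
    rcases Nat.eq_zero_or_pos i with h0 | h0
    · exfalso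
      subst h0
      obtain ⟨c, hcc⟩ := E.lev0 _ hi.1
      apply hja.2
      rw [hcc]
      exact hconst' c _ (Nat.succ_pos j)
    · exact h0
  have hj1 : 1 ≤ j := by
    rcases Nat.eq_zero_or_pos j with h0 | h0
    · exfalso
      subst h0
      obtain ⟨c, hcc⟩ := E'.lev0 _ hj.1
      apply hib.2
      rw [hcc]
      exact hconst c _ (Nat.succ_pos i)
    · exact h0
  -- a nonconstant function
  obtain ⟨f, hf⟩ := S.nonconst
  obtain ⟨t, htA, s, hsA, hs0, hts⟩ := hF (ι S.σ f)
  have hfs : t = mo S.σ f 0 * s := by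
    have : ι S.σ f * s = t := by rw [hts, mul_assoc, inv_mul_cancel₀ hs0, mul_one]
    exact this.symm
  have hct : ∀ n : ℕ, E.c n ⟨t, htA⟩ = f * E.c n ⟨s, hsA⟩ := by
    intro n
    rw [hc, hc]
    show (ψ S.σ t).coeff (-(n : ℤ)) = f * (ψ S.σ s).coeff (-(n : ℤ))
    rw [hfs, ψ_mo_mul_coeff, zpow_zero, sub_zero]
    rfl
  obtain ⟨n, hn⟩ := exists_lev E ⟨s, hsA⟩ (fun h => hs0 (congrArg Subtype.val h))
  refine hMM F K S.X ↥A Q E E' ⟨a, haA⟩ ⟨b, hbA⟩ i j hi1 hj1 hi hib hja hj
    ⟨⟨t, htA⟩, ⟨s, hsA⟩, n, ?_, hn.1, ?_⟩ (gk2_of S A hGK)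
  · intro m hm
    rw [hct, hn.1 m hm, mul_zero]
  · rw [LinearIndependent.pair_iff]
    intro α β h
    rw [hct] at h
    have h1 : (α • f + β • (1 : K)) * E.c n ⟨s, hsA⟩ = 0 := by
      rw [← h, add_mul, smul_mul_assoc, smul_mul_assoc, one_mul]
    have h2 := (mul_eq_zero.mp h1).resolve_right hn.2
    have hα : α = 0 := by
      by_contra hα
      apply hf (-(α⁻¹ * β))
      have h3 : α⁻¹ • (α • f + β • (1 : K)) = 0 := by rw [h2, smul_zero]
      rw [smul_add, smul_smul, smul_smul, inv_mul_cancel₀ hα, one_smul] at h3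
      rw [map_neg, Algebra.algebraMap_eq_smul_one]
      exact (eq_neg_of_add_eq_zero_left h3).symm
    refine ⟨hα, ?_⟩
    rw [hα, zero_smul, zero_add] at h2
    by_contra hβ
    exact one_ne_zero ((smul_eq_zero.mp h2).resolve_left hβ)

end Pool.Agent.Q2N.H90
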