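import Mathlib

/-! # Two-ended growth: abstract data (type (-,-) of the disproof of Q2) -/

set_option autoImplicit false

open Module

namespace Pool.Agent.Q2N.H90

/-- Poles of the elements of `K`. -/
structure Poles (F K X : Type) [Field F] [Field K] [Algebra F K] where
  pol : K → Set X
  fin : ∀ f, (pol f).Finite
  pol_add : ∀ f g, pol (f + g) ⊆ pol f ∪ pol g
  pol_mul : ∀ f g, pol (f * g) ⊆ pol f ∪ pol g
  pol_const : ∀ c : F, pol (algebraMap F K c) = ∅
  const_of : ∀ f, pol f = ∅ → ∃ c : F, f = algebraMap F K c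
  dim_mul : ∀ U W : Submodule F K, FiniteDimensional F U → FiniteDimensional F W →
    U ≠ ⊥ → W ≠ ⊥ → finrank F U + finrank F W ≤ finrank F (U * W : Submodule F K) + 1

variable {F K X A : Type} [Field F] [Field K] [Algebra F K] [Ring A] [Algebra F A]

/-- One end of the algebra `A`: `c n x` is the coefficient of order `n` (pole of order `n`). -/
structure End1 (Q : Poles F K X) (A : Type) [Ring A] [Algebra F A] where
  c : ℕ → (A →ₗ[F] K)
  phi : K ≃ₐ[F] K
  T : Equiv.Perm X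
  pol_phi : ∀ f x, x ∈ Q.pol (phi f) ↔ T x ∈ Q.pol f
  free : ∀ (n : ℤ) (x : X), n ≠ 0 → (T ^ n) x ≠ x
  bdd : ∀ x, ∃ n, ∀ m, n < m → c m x = 0
  inj : ∀ x, (∀ m, c m x = 0) → x = 0
  lev0 : ∀ x, (∀ m, 0 < m → c m x = 0) → ∃ a : F, x = algebraMap F A a
  c_one : c 0 1 = 1
  c_one' : ∀ m, 0 < m → c m 1 = 0
  mul_bdd : ∀ x y n m, (∀ i, n < i → c i x = 0) → (∀ i, m < i → c i y = 0) →
    ∀ i, n + m < i → c i (x * y) = 0
  mul_lead : ∀ x y n m, (∀ i, n < i → c i x = 0) → (∀ i, m < i → c i y = 0) →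
    c (n + m) (x * y) = c n x * (phi ^ n) (c m y)
  win : ∀ V : Submodule F A, FiniteDimensional F V → ∃ S : Set X, S.Finite ∧ ∃ C : ℕ,
    ∀ z : ℕ, 1 ≤ z → ∀ x ∈ V ^ z, ∀ n, ∀ u ∈ Q.pol (c n x), ∃ t : ℤ, |t| ≤ C * z ∧ (T ^ t) u ∈ S

namespace End1

variable {Q : Poles F K X} (E : End1 Q A)

/-- elements of order at most `n`. -/
def Fil (n : ℕ) : Submodule F A where
  carrier := {x | ∀ m, n < m → E.c m x = 0}
  add_mem' := by
    intro a b ha hb m hm
    rw [map_add, ha m hm, hb m hm, add_zero]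
  zero_mem' := by
    intro m _
    exact map_zero _
  smul_mem' := by
    intro a x hx m hm
    rw [map_smul, hx m hm, smul_zero]

lemma mem_Fil {n : ℕ} {x : A} : x ∈ E.Fil n ↔ ∀ m, n < m → E.c m x = 0 := Iff.rfl

lemma Fil_mono {n m : ℕ} (h : n ≤ m) : E.Fil n ≤ E.Fil m := by
  intro x hx i hi
  exact hx i (lt_of_le_of_lt h hi)

/-- leading coefficients of order `n` of a subspace. -/
noncomputable def L (n : ℕ) (U : Submodule F A) : Submodule F K := (U ⊓ E.Fil n).map (E.c n)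

lemma mem_L {n : ℕ} {U : Submodule F A} {f : K} :
    f ∈ E.L n U ↔ ∃ x, (x ∈ U ∧ x ∈ E.Fil n) ∧ E.c n x = f := by
  unfold L
  rw [Submodule.mem_map]
  constructor
  · rintro ⟨x, hx, rfl⟩
    exact ⟨x, Submodule.mem_inf.mp hx, rfl⟩
  · rintro ⟨x, hx, rfl⟩
    exact ⟨x, Submodule.mem_inf.mpr hx, rfl⟩

lemma L_mono {n : ℕ} {U W : Submodule F A} (h : U ≤ W) : E.L n U ≤ E.L n W :=
  Submodule.map_mono (inf_le_inf_right _ h)

lemma one_mem_Fil : (1 : A) ∈ E.Fil 0 := E.c_one'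

lemma algebraMap_mem_Fil (a : F) (n : ℕ) : algebraMap F A a ∈ E.Fil n := by
  rw [Algebra.algebraMap_eq_smul_one]
  exact (E.Fil n).smul_mem a (E.Fil_mono (Nat.zero_le n) E.one_mem_Fil)

lemma mul_mem_Fil {n m : ℕ} {x y : A} (hx : x ∈ E.Fil n) (hy : y ∈ E.Fil m) :
    x * y ∈ E.Fil (n + m) := E.mul_bdd x y n m hx hy

lemma c_mul {n m : ℕ} {x y : A} (hx : x ∈ E.Fil n) (hy : y ∈ E.Fil m) :
    E.c (n + m) (x * y) = E.c n x * (E.phi ^ n) (E.c m y) := E.mul_lead x y n m hx hy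

lemma pow_mem_Fil {n : ℕ} {x : A} (hx : x ∈ E.Fil n) (k : ℕ) : x ^ k ∈ E.Fil (k * n) := by
  induction k with
  | zero => simpa using E.Fil_mono (Nat.zero_le _) E.one_mem_Fil
  | succ k ih =>
    rw [pow_succ, Nat.succ_mul]
    exact E.mul_mem_Fil ih hx

lemma Fil_mul_le {n m : ℕ} {U W : Submodule F A} (hU : U ≤ E.Fil n) (hW : W ≤ E.Fil m) :
    U * W ≤ E.Fil (n + m) := by
  rw [Submodule.mul_le]
  intro x hx y hy
  exact E.mul_mem_Fil (hU hx) (hW hy)

lemma pow_le_Fil {n : ℕ} {U : Submodule F A} (hU : U ≤ E.Fil n) (k : ℕ) :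
    U ^ k ≤ E.Fil (k * n) := by
  induction k with
  | zero =>
    rw [pow_zero, Submodule.one_le]
    exact E.Fil_mono (Nat.zero_le _) E.one_mem_Fil
  | succ k ih =>
    rw [pow_succ, Nat.succ_mul]
    exact E.Fil_mul_le ih hU

/-- the map `phi ^ k` on subspaces. -/
noncomputable def ph (k : ℕ) (U : Submodule F K) : Submodule F K :=
  U.map ((E.phi ^ k : K ≃ₐ[F] K).toLinearMap)

lemma mem_ph {k : ℕ} {U : Submodule F K} {f : K} :
    f ∈ E.ph k U ↔ ∃ g ∈ U, (E.phi ^ k) g = f := by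
  unfold ph
  rw [Submodule.mem_map]
  rfl

lemma finrank_ph (k : ℕ) (U : Submodule F K) : finrank F (E.ph k U) = finrank F U := by
  unfold ph
  exact LinearEquiv.finrank_map_eq ((E.phi ^ k : K ≃ₐ[F] K).toLinearEquiv) U

lemma ph_ne_bot {k : ℕ} {U : Submodule F K} (h : U ≠ ⊥) : E.ph k U ≠ ⊥ := by
  intro h0
  apply h
  rw [Submodule.eq_bot_iff] at h0 ⊢
  intro x hx
  have := h0 ((E.phi ^ k) x) (E.mem_ph.mpr ⟨x, hx, rfl⟩)
  exact (map_eq_zero_iff _ (E.phi ^ k : K ≃ₐ[F] K).injective).mp this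

lemma L_mul_le (n m : ℕ) (U W : Submodule F A) :
    E.L n U * E.ph n (E.L m W) ≤ E.L (n + m) (U * W) := by
  rw [Submodule.mul_le]
  intro f hf g hg
  obtain ⟨x, ⟨hxU, hxF⟩, rfl⟩ := E.mem_L.mp hf
  obtain ⟨g', hg', rfl⟩ := E.mem_ph.mp hg
  obtain ⟨y, ⟨hyW, hyF⟩, rfl⟩ := E.mem_L.mp hg'
  rw [E.mem_L]
  exact ⟨x * y, ⟨Submodule.mul_mem_mul hxU hyW, E.mul_mem_Fil hxF hyF⟩, E.c_mul hxF hyF⟩

instance fd_L (n : ℕ) (U : Submodule F A) [FiniteDimensional F U] :
    FiniteDimensional F (E.L n U) := by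
  unfold L
  have : FiniteDimensional F (U ⊓ E.Fil n : Submodule F A) :=
    Submodule.finiteDimensional_of_le (inf_le_left : U ⊓ E.Fil n ≤ U)
  infer_instance

lemma sumL_aux (U : Submodule F A) [FiniteDimensional F U] (n : ℕ) :
    finrank F (U ⊓ E.Fil (n + 1) : Submodule F A) =
      finrank F (U ⊓ E.Fil n : Submodule F A) + finrank F (E.L (n + 1) U) := by
  have hfd : FiniteDimensional F (U ⊓ E.Fil (n + 1) : Submodule F A) :=
    Submodule.finiteDimensional_of_le (inf_le_left : U ⊓ E.Fil (n + 1) ≤ U)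
  have h := LinearMap.finrank_range_add_finrank_ker
    ((E.c (n + 1)).domRestrict (U ⊓ E.Fil (n + 1)))
  have h1 : finrank F (LinearMap.range ((E.c (n + 1)).domRestrict (U ⊓ E.Fil (n + 1)))) =
      finrank F (E.L (n + 1) U) := by
    unfold L
    rw [LinearMap.range_domRestrict]
  have h2 : finrank F (LinearMap.ker ((E.c (n + 1)).domRestrict (U ⊓ E.Fil (n + 1)))) =
      finrank F (U ⊓ E.Fil n : Submodule F A) := by
    have e : (LinearMap.ker ((E.c (n + 1)).domRestrict (U ⊓ E.Fil (n + 1)))).map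
        (U ⊓ E.Fil (n + 1)).subtype = U ⊓ E.Fil n := by
      ext x
      constructor
      · rintro ⟨⟨y, hy⟩, hk, rfl⟩
        have hk' : E.c (n + 1) y = 0 := hk
        refine Submodule.mem_inf.mpr ⟨(Submodule.mem_inf.mp hy).1, ?_⟩
        intro m hm
        rcases Nat.lt_or_ge (n + 1) m with h | h
        · exact (Submodule.mem_inf.mp hy).2 m h
        · have : m = n + 1 := le_antisymm h hm
          subst this
          exact hk'
      · intro hx
        obtain ⟨hxU, hxF⟩ := Submodule.mem_inf.mp hx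
        have hx1 : x ∈ U ⊓ E.Fil (n + 1) :=
          Submodule.mem_inf.mpr ⟨hxU, E.Fil_mono (Nat.le_succ n) hxF⟩
        exact ⟨⟨x, hx1⟩, hxF (n + 1) (Nat.lt_succ_self n), rfl⟩
    rw [← e]
    exact (LinearEquiv.finrank_eq (Submodule.equivMapOfInjective _
      (Submodule.injective_subtype _) _))
  rw [h1, h2] at h
  omega

lemma sumL0 (U : Submodule F A) [FiniteDimensional F U] :
    finrank F (U ⊓ E.Fil 0 : Submodule F A) = finrank F (E.L 0 U) := by
  have hinj : Function.Injective ((E.c 0).domRestrict (U ⊓ E.Fil 0)) := by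
    rw [← LinearMap.ker_eq_bot, LinearMap.ker_eq_bot']
    rintro ⟨x, hx⟩ h
    have h' : E.c 0 x = 0 := h
    have : x = 0 := by
      apply E.inj
      intro m
      rcases Nat.eq_zero_or_pos m with h0 | h0
      · subst h0
        exact h'
      · exact (Submodule.mem_inf.mp hx).2 m h0
    exact Subtype.ext this
  have h1 : E.L 0 U = LinearMap.range ((E.c 0).domRestrict (U ⊓ E.Fil 0)) := by
    unfold L
    rw [LinearMap.range_domRestrict]
  rw [h1]
  exact (LinearMap.finrank_range_of_inj hinj).symm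

lemma sumL (U : Submodule F A) [FiniteDimensional F U] (n : ℕ) :
    finrank F (U ⊓ E.Fil n : Submodule F A) =
      ∑ i ∈ Finset.range (n + 1), finrank F (E.L i U) := by
  induction n with
  | zero => rw [sumL0]; simp
  | succ n ih => rw [sumL_aux, ih, Finset.sum_range_succ _ (n + 1)]

lemma sumL_le (U : Submodule F A) [FiniteDimensional F U] (n : ℕ) :
    ∑ i ∈ Finset.range (n + 1), finrank F (E.L i U) ≤ finrank F U := by
  rw [← sumL]
  exact Submodule.finrank_mono inf_le_left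

lemma finrank_L0_le (U : Submodule F A) [FiniteDimensional F U] :
    finrank F (E.L 0 U) ≤ 1 := by
  have h : E.L 0 U ≤ Submodule.span F {(1 : K)} := by
    intro f hf
    obtain ⟨x, ⟨_, hxF⟩, rfl⟩ := E.mem_L.mp hf
    obtain ⟨a, rfl⟩ := E.lev0 x hxF
    rw [Algebra.algebraMap_eq_smul_one, map_smul, E.c_one]
    exact Submodule.smul_mem _ _ (Submodule.mem_span_singleton_self _)
  exact (Submodule.finrank_mono h).trans (finrank_span_le_card _ |>.trans (by simp))

/-- order exactly `n`. -/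
def Lev (x : A) (n : ℕ) : Prop := x ∈ E.Fil n ∧ E.c n x ≠ 0

lemma Lev.mul {x y : A} {n m : ℕ} (hx : E.Lev x n) (hy : E.Lev y m) : E.Lev (x * y) (n + m) := by
  refine ⟨E.mul_mem_Fil hx.1 hy.1, ?_⟩
  rw [E.c_mul hx.1 hy.1]
  refine mul_ne_zero hx.2 ?_
  intro h
  exact hy.2 ((map_eq_zero_iff _ (E.phi ^ n : K ≃ₐ[F] K).injective).mp h)

lemma lev_one : E.Lev 1 0 := ⟨E.one_mem_Fil, by rw [E.c_one]; exact one_ne_zero⟩

lemma Lev.pow {x : A} {n : ℕ} (hx : E.Lev x n) (k : ℕ) : E.Lev (x ^ k) (k * n) := by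
  induction k with
  | zero => simpa using E.lev_one
  | succ k ih =>
    rw [pow_succ, Nat.succ_mul]
    exact Lev.mul E ih hx

end End1

end Pool.Agent.Q2N.H90
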