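import Pool.Agent.Helper90_Q2N.Loc2

/-! # The ping-pong iteration -/

set_option autoImplicit false

open Module

namespace Pool.Agent.Q2N.H90

/-- Pure growth: a family with `ρ G^t z_t^2 / 2 ≤ d (k z_t)` contradicts `d n ≤ n^(2+ε)`. -/
lemma growth_contra (d : ℕ → ℝ) (hmono : Monotone d) (k K z0 : ℕ) (hk : 1 ≤ k) (hK : 1 ≤ K)
    (hz : 1 ≤ z0) (ρ G : ℝ) (hρ : 0 < ρ) (hG : 1 < G)
    (h : ∀ t : ℕ, ρ * G ^ t * ((K ^ t * z0 : ℕ) : ℝ) ^ 2 / 2 ≤ d (k * (K ^ t * z0)))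
    (hd : ∀ ε : ℝ, 0 < ε → ∀ᶠ n : ℕ in Filter.atTop, d n ≤ (n : ℝ) ^ ((2 : ℝ) + ε)) : False := by
  -- choose ε with K ^ ε < G
  have hKr : (1 : ℝ) ≤ K := by exact_mod_cast hK
  obtain ⟨ε, hε, hlt⟩ : ∃ ε : ℝ, 0 < ε ∧ (K : ℝ) ^ ε < G := by
    have hc : Filter.Tendsto (fun ε : ℝ => (K : ℝ) ^ ε) (nhdsWithin 0 (Set.Ioi 0)) (nhds 1) := by
      have h1 : ContinuousAt (fun ε : ℝ => (K : ℝ) ^ ε) 0 :=
        Real.continuousAt_const_rpow (by positivity)
      have h2 := h1.tendsto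
      simp only [Real.rpow_zero] at h2
      exact h2.mono_left nhdsWithin_le_nhds
    have h3 := (hc.eventually (gt_mem_nhds hG)).and self_mem_nhdsWithin
    obtain ⟨ε, h4, h5⟩ := h3.exists
    exact ⟨ε, h5, h4⟩
  obtain ⟨n0, hn0⟩ := Filter.eventually_atTop.mp (hd ε hε)
  have hz0 : (1 : ℝ) ≤ z0 := by exact_mod_cast hz
  set C : ℝ := ((k + n0 : ℕ) : ℝ) ^ ((2 : ℝ) + ε) * (z0 : ℝ) ^ ε with hC
  have key : ∀ t : ℕ, ρ / 2 * (G / (K : ℝ) ^ ε) ^ t ≤ C := by
    intro t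
    set Z : ℕ := K ^ t * z0 with hZ
    have hZ1 : 1 ≤ Z := Nat.one_le_iff_ne_zero.mpr (by positivity)
    have hZr : (1 : ℝ) ≤ (Z : ℝ) := by exact_mod_cast hZ1
    have h1 := h t
    have h2 : d (k * Z) ≤ d ((k + n0) * Z) := hmono (Nat.mul_le_mul_right _ (Nat.le_add_right _ _))
    have h3 := hn0 ((k + n0) * Z) (by
      calc n0 = n0 * 1 := (Nat.mul_one _).symm
        _ ≤ (k + n0) * Z := Nat.mul_le_mul (Nat.le_add_left _ _) hZ1)
    have h4 : (((k + n0) * Z : ℕ) : ℝ) ^ ((2 : ℝ) + ε) =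
        ((k + n0 : ℕ) : ℝ) ^ ((2 : ℝ) + ε) * ((Z : ℝ) ^ 2 * (Z : ℝ) ^ ε) := by
      rw [Nat.cast_mul, Real.mul_rpow (by positivity) (by positivity)]
      congr 1
      rw [Real.rpow_add (by positivity)]
      norm_num
    have h5 : (Z : ℝ) ^ ε = ((K : ℝ) ^ ε) ^ t * (z0 : ℝ) ^ ε := by
      rw [hZ, Nat.cast_mul, Real.mul_rpow (by positivity) (by positivity), Nat.cast_pow,
        ← Real.rpow_natCast, ← Real.rpow_mul (by positivity), mul_comm (t : ℝ) ε,
        Real.rpow_mul (by positivity), Real.rpow_natCast]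
    have h6 : ρ * G ^ t * (Z : ℝ) ^ 2 / 2 ≤
        ((k + n0 : ℕ) : ℝ) ^ ((2 : ℝ) + ε) * ((Z : ℝ) ^ 2 * (Z : ℝ) ^ ε) := by
      rw [← h4]
      exact h1.trans (h2.trans h3)
    have h7 : ρ * G ^ t / 2 ≤ ((k + n0 : ℕ) : ℝ) ^ ((2 : ℝ) + ε) * (Z : ℝ) ^ ε := by
      have hZ2 : (0 : ℝ) < (Z : ℝ) ^ 2 := by positivity
      nlinarith [h6, hZ2]
    have hKe : (0 : ℝ) < (K : ℝ) ^ ε := by positivity
    rw [div_pow]
    rw [h5] at h7
    have h8 : ρ / 2 * (G ^ t / ((K : ℝ) ^ ε) ^ t) = (ρ * G ^ t / 2) / ((K : ℝ) ^ ε) ^ t := by ring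
    rw [h8, div_le_iff₀ (by positivity), hC]
    calc ρ * G ^ t / 2 ≤ _ := h7
      _ = _ := by ring
  have hr : 1 < G / (K : ℝ) ^ ε := by
    rw [lt_div_iff₀ (by positivity)]
    linarith
  obtain ⟨t, ht⟩ := pow_unbounded_of_one_lt (C / (ρ / 2)) hr
  have := key t
  rw [div_lt_iff₀ (by positivity)] at ht
  linarith

variable {F K X A : Type} [Field F] [Field K] [Algebra F K] [Ring A] [Algebra F A]
variable {Q : Poles F K X}

/-- Density `ρ` at the first end. -/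
def Dens (E : End1 Q A) (V : Submodule F A) (η ρ : ℝ) (z : ℕ) : Prop :=
  ∃ n : ℕ, 1 ≤ n ∧ 1 + ρ * (n + η / 4 * z) ≤ (finrank F (E.L n (V ^ z)) : ℝ)

lemma two_rounds (E E' : End1 Q A) (V : Submodule F A) (e q e' q' : ℕ) (he : 1 ≤ e) (hq : 1 ≤ q)
    (he' : 1 ≤ e') (hq' : 1 ≤ q') (fd : FiniteDimensional F V) (one : (1 : A) ∈ V)
    (R1 : RoundC E E' V e q) (R2 : RoundC E' E V e' q') (hg : q * q' < e * e')
    (start : ∀ η : ℝ, 0 < η → η < 1 → ∃ ρ : ℝ, 0 < ρ ∧ ∀ z0 : ℕ, ∃ z : ℕ, z0 ≤ z ∧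
      Dens E V η ρ z) : ¬ GK2 F A := by
  intro hGK
  -- the gain
  obtain ⟨η, hη0, hη1, hG⟩ : ∃ η : ℝ, 0 < η ∧ η < 1 ∧
      1 < ((1 - η) * ((e : ℝ) / q) ^ 2) * ((1 - η) * ((e' : ℝ) / q') ^ 2) := by
    have hqr : (0 : ℝ) < q := by exact_mod_cast hq
    have hqr' : (0 : ℝ) < q' := by exact_mod_cast hq'
    have her : (0 : ℝ) < e := by exact_mod_cast he
    have her' : (0 : ℝ) < e' := by exact_mod_cast he'
    have hgr : (q : ℝ) * q' < e * e' := by exact_mod_cast hg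
    have hc : Filter.Tendsto (fun η : ℝ => ((1 - η) * ((e : ℝ) / q) ^ 2) *
        ((1 - η) * ((e' : ℝ) / q') ^ 2)) (nhdsWithin 0 (Set.Ioi 0))
        (nhds (((1 - 0) * ((e : ℝ) / q) ^ 2) * ((1 - 0) * ((e' : ℝ) / q') ^ 2))) := by
      apply Filter.Tendsto.mono_left _ nhdsWithin_le_nhds
      apply Continuous.tendsto
      fun_prop
    have h1 : 1 < (((1 - 0) * ((e : ℝ) / q) ^ 2) * ((1 - 0) * ((e' : ℝ) / q') ^ 2)) := by
      have h2 : (((1 - 0) * ((e : ℝ) / q) ^ 2) * ((1 - 0) * ((e' : ℝ) / q') ^ 2)) =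
          ((e * e' : ℝ) / (q * q')) ^ 2 := by
        field_simp
        ring
      rw [h2]
      have h3 : 1 < (e * e' : ℝ) / (q * q') := by
        rw [lt_div_iff₀ (by positivity)]
        linarith
      nlinarith
    have h3 := ((hc.eventually (lt_mem_nhds h1)).and
      (Ioo_mem_nhdsGT (show (0 : ℝ) < 1 by norm_num)))
    obtain ⟨η, h4, h5⟩ := h3.exists
    exact ⟨η, h5.1, h5.2, h4⟩
  set g1 : ℝ := (1 - η) * ((e : ℝ) / q) ^ 2 with hg1
  set g2 : ℝ := (1 - η) * ((e' : ℝ) / q') ^ 2 with hg2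
  have hg1p : 0 < g1 := by
    have : (0 : ℝ) < 1 - η := by linarith
    have hqr : (0 : ℝ) < q := by exact_mod_cast hq
    have her : (0 : ℝ) < e := by exact_mod_cast he
    positivity
  obtain ⟨k1, Z1, hk1, r1⟩ := R1 η hη0 hη1
  obtain ⟨k2, Z2, hk2, r2⟩ := R2 η hη0 hη1
  obtain ⟨ρ, hρ, hst⟩ := start η hη0 hη1
  obtain ⟨z0, hz0⟩ := exists_nat_ge ((Z1 : ℝ) / ρ + (Z2 : ℝ) / (g1 * ρ) + 1)
  obtain ⟨z, hzz, hdens⟩ := hst z0
  have hz : (Z1 : ℝ) / ρ + (Z2 : ℝ) / (g1 * ρ) + 1 ≤ z := hz0.trans (by exact_mod_cast hzz)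
  have hb1 : (Z1 : ℝ) ≤ ρ * z := by
    have h1 : (Z1 : ℝ) / ρ ≤ z := by
      have : 0 ≤ (Z2 : ℝ) / (g1 * ρ) := by positivity
      linarith
    rw [div_le_iff₀ hρ] at h1
    linarith
  have hb2 : (Z2 : ℝ) ≤ g1 * ρ * z := by
    have h1 : (Z2 : ℝ) / (g1 * ρ) ≤ z := by
      have : 0 ≤ (Z1 : ℝ) / ρ := by positivity
      linarith
    rw [div_le_iff₀ (by positivity)] at h1
    linarith
  have hz1 : 1 ≤ z := by
    have : (1 : ℝ) ≤ z := by
      have h1 : 0 ≤ (Z1 : ℝ) / ρ := by positivity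
      have h2 : 0 ≤ (Z2 : ℝ) / (g1 * ρ) := by positivity
      linarith
    exact_mod_cast this
  have hGp : 1 ≤ g1 * g2 := hG.le
  -- the iteration
  have it : ∀ t : ℕ, Dens E V η (ρ * (g1 * g2) ^ t) ((k1 * k2) ^ t * z) := by
    intro t
    induction t with
    | zero => simpa using hdens
    | succ t ih =>
      obtain ⟨n, hn1, hn⟩ := ih
      set z' : ℕ := (k1 * k2) ^ t * z with hz'
      have hkk : 1 ≤ (k1 * k2) ^ t := Nat.one_le_pow _ _ (Nat.mul_pos hk1 hk2)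
      have hz'1 : z ≤ z' := by
        rw [hz']
        calc z = 1 * z := (Nat.one_mul z).symm
          _ ≤ _ := Nat.mul_le_mul_right _ hkk
      have hz'r : (z : ℝ) ≤ z' := by exact_mod_cast hz'1
      have hGt : 1 ≤ (g1 * g2) ^ t := one_le_pow₀ hGp
      have hρt : ρ ≤ ρ * (g1 * g2) ^ t := by nlinarith
      have hzr : (0 : ℝ) ≤ z := by positivity
      obtain ⟨_, n', hn'1, hn'⟩ := r1 z' n (ρ * (g1 * g2) ^ t) (hz1.trans hz'1) hn1
        (lt_of_lt_of_le hρ hρt)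
        (hb1.trans (mul_le_mul hρt hz'r hzr (hρ.le.trans hρt))) hn
      have hk1z : z ≤ k1 * z' := by
        calc z = 1 * z := (Nat.one_mul z).symm
          _ ≤ k1 * z' := Nat.mul_le_mul hk1 hz'1
      have hk1zr : (z : ℝ) ≤ ((k1 * z' : ℕ) : ℝ) := by exact_mod_cast hk1z
      have h2 : g1 * ρ ≤ g1 * (ρ * (g1 * g2) ^ t) := mul_le_mul_of_nonneg_left hρt hg1p.le
      obtain ⟨_, n'', hn''1, hn''⟩ := r2 (k1 * z') n' (g1 * (ρ * (g1 * g2) ^ t)) (hz1.trans hk1z)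
        hn'1 (by positivity)
        (hb2.trans (mul_le_mul h2 hk1zr hzr (by positivity))) (by
          have e1 : g1 * (ρ * (g1 * g2) ^ t) * ((n' : ℝ) + η / 4 * ((k1 * z' : ℕ) : ℝ)) =
            (1 - η) * ((e : ℝ) / q) ^ 2 * (ρ * (g1 * g2) ^ t) *
              ((n' : ℝ) + η / 4 * ((k1 * z' : ℕ) : ℝ)) := by
            rw [hg1]
          rw [e1]
          exact hn')
      have hzz' : (k1 * k2) ^ (t + 1) * z = k2 * (k1 * z') := by rw [hz']; ring
      refine ⟨n'', hn''1, ?_⟩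
      rw [hzz']
      have e2 : ρ * (g1 * g2) ^ (t + 1) = (1 - η) * ((e' : ℝ) / q') ^ 2 *
          (g1 * (ρ * (g1 * g2) ^ t)) := by
        rw [← hg2, pow_succ]; ring
      rw [e2]
      exact hn''
  have hVmono : ∀ a b : ℕ, a ≤ b → V ^ a ≤ V ^ b := by
    intro a b hab
    exact pow_le_pow_right' (Submodule.one_le.mpr one) hab
  refine growth_contra (fun n => (finrank F (V ^ n : Submodule F A) : ℝ)) ?_ k1 (k1 * k2) z hk1
    (Nat.mul_pos hk1 hk2) hz1 ρ (g1 * g2) hρ hG ?_ ?_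
  · intro a b hab
    have : FiniteDimensional F (V ^ b : Submodule F A) :=
      (Submodule.fg_iff_finiteDimensional _).mp
        (Submodule.FG.pow ((Submodule.fg_iff_finiteDimensional V).mpr fd) b)
    exact Nat.cast_le.mpr (Submodule.finrank_mono (hVmono a b hab))
  · intro t
    obtain ⟨n, hn1, hn⟩ := it t
    set z' : ℕ := (k1 * k2) ^ t * z with hz'
    have hkk : 1 ≤ (k1 * k2) ^ t := Nat.one_le_pow _ _ (Nat.mul_pos hk1 hk2)
    have hz'1 : z ≤ z' := by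
      rw [hz']
      calc z = 1 * z := (Nat.one_mul z).symm
        _ ≤ _ := Nat.mul_le_mul_right _ hkk
    have hz'r : (z : ℝ) ≤ z' := by exact_mod_cast hz'1
    have hGt : 1 ≤ (g1 * g2) ^ t := one_le_pow₀ hGp
    have hρt : ρ ≤ ρ * (g1 * g2) ^ t := by nlinarith
    exact (r1 z' n (ρ * (g1 * g2) ^ t) (hz1.trans hz'1) hn1 (lt_of_lt_of_le hρ hρt)
      (hb1.trans (mul_le_mul hρt hz'r (by positivity) (hρ.le.trans hρt))) hn).1
  · exact hGK V fd (Submodule.one_le.mpr one)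

lemma start_lemma (E E' : End1 Q A) (V : Submodule F A) (p : A) (e q : ℕ)
    (hS : Sea E E' V p e q) (hL : LocC E E' V p e q) (n : ℕ) (hn : 1 ≤ n)
    (h2 : 2 ≤ finrank F (E.L n V)) :
    ∀ η : ℝ, 0 < η → η < 1 → ∃ ρ : ℝ, 0 < ρ ∧ ∀ z0 : ℕ, ∃ z : ℕ, z0 ≤ z ∧ Dens E V η ρ z := by
  intro η hη0 hη1
  obtain ⟨P, R, C, J, _, _, hloc⟩ := hL
  have he := hS.e1
  have hfd := hS.fd
  set w : ℕ := e * n + 2 * C * 1 + J + 1 with hw
  have hw' : e * n + 2 * C * 1 + J < e * w := by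
    calc e * n + 2 * C * 1 + J < w := Nat.lt_succ_self _
      _ = 1 * w := (Nat.one_mul w).symm
      _ ≤ e * w := Nat.mul_le_mul_right _ he
  set c : ℕ := e + (e * n + P) + 1 + (e + e * P + 1) with hc
  refine ⟨(e : ℝ) / (w * c), by positivity, ?_⟩
  intro z0
  set s : ℕ := z0 + 1 with hs
  obtain ⟨l, hlP, -, hl⟩ := hloc e 1 n w s he (dvd_refl e) le_rfl hn (by rw [pow_one]; exact h2)
    hw' 0 he
  have h := hl (q * s + (e * R + R + q * e * P) * 1) (s + (e + e * P + 1) * 1) le_rfl le_rfl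
  rw [pow_one, Nat.mul_one (e + e * P + 1)] at h
  refine ⟨s + (e + e * P + 1), by omega, e * s + e * n + l, ?_, ?_⟩
  · have : 1 ≤ e * n := Nat.mul_pos he hn
    omega
  · have hfd2 : FiniteDimensional F (V ^ (s + (e + e * P + 1)) : Submodule F A) :=
      (Submodule.fg_iff_finiteDimensional _).mp
        (Submodule.FG.pow ((Submodule.fg_iff_finiteDimensional V).mpr hfd) _)
    have h3 : finrank F (E.L (e * s + e * n + l) (V ^ (s + (e + e * P + 1)) ⊓
        E'.Fil (q * s + (e * R + R + q * e * P) * 1))) ≤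
        finrank F (E.L (e * s + e * n + l) (V ^ (s + (e + e * P + 1)))) :=
      Submodule.finrank_mono (E.L_mono inf_le_left)
    have h4 : 1 + (s / w + 1) * e ≤
        finrank F (E.L (e * s + e * n + l) (V ^ (s + (e + e * P + 1)))) := by
      have h5 : (s / w + 1) * (e * 1) ≤ (s / w + 1) * (e * (finrank F (E.L n V) - 1)) := by
        apply Nat.mul_le_mul_left
        apply Nat.mul_le_mul_left
        omega
      rw [Nat.mul_one] at h5
      omega
    have h6 : (1 : ℝ) + ((s / w : ℕ) + 1) * e ≤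
        (finrank F (E.L (e * s + e * n + l) (V ^ (s + (e + e * P + 1)))) : ℝ) := by
      exact_mod_cast h4
    refine le_trans ?_ h6
    have h7 : (s : ℝ) / w ≤ ((s / w : ℕ) : ℝ) + 1 := (Nat.lt_floor_add_one _).le.trans (by
      rw [Nat.floor_div_eq_div])
    have hwp : (0 : ℝ) < w := by positivity
    have hcp : (0 : ℝ) < c := by positivity
    have her : (0 : ℝ) < e := by exact_mod_cast he
    have h8 : ((e * s + e * n + l : ℕ) : ℝ) + η / 4 * ((s + (e + e * P + 1) : ℕ) : ℝ) ≤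
        c * s := by
      have h9 : (e * s + e * n + l) + (s + (e + e * P + 1)) ≤ c * s := by
        have hs1 : 1 ≤ s := by omega
        have : c * s = e * s + (e * n + P) * s + s + (e + e * P + 1) * s := by rw [hc]; ring
        rw [this]
        have h10 : e * n + P ≤ (e * n + P) * s := Nat.le_mul_of_pos_right _ hs1
        have h11 : (e + e * P + 1) ≤ (e + e * P + 1) * s := Nat.le_mul_of_pos_right _ hs1
        omega
      have h12 : ((e * s + e * n + l : ℕ) : ℝ) + ((s + (e + e * P + 1) : ℕ) : ℝ) ≤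
        ((c * s : ℕ) : ℝ) := by exact_mod_cast h9
      rw [Nat.cast_mul] at h12
      have h13 : η / 4 * ((s + (e + e * P + 1) : ℕ) : ℝ) ≤ 1 * ((s + (e + e * P + 1) : ℕ) : ℝ) := by
        apply mul_le_mul_of_nonneg_right (by linarith) (by positivity)
      linarith
    have h14 : (e : ℝ) / (w * c) * (((e * s + e * n + l : ℕ) : ℝ) +
        η / 4 * ((s + (e + e * P + 1) : ℕ) : ℝ)) ≤ (s : ℝ) / w * e := by
      calc _ ≤ (e : ℝ) / (w * c) * (c * s) := mul_le_mul_of_nonneg_left h8 (by positivity)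
        _ = (s : ℝ) / w * e := by field_simp
    have h15 : (s : ℝ) / w * e ≤ (((s / w : ℕ) : ℝ) + 1) * e :=
      mul_le_mul_of_nonneg_right h7 her.le
    linarith

lemma sea_make (E E' : End1 Q A) (V : Submodule F A) (fd : FiniteDimensional F V)
    (one : (1 : A) ∈ V) (a b : A) (i j : ℕ) (hi : 1 ≤ i) (hj : 1 ≤ j) (ha : E.Lev a i)
    (hb : E.Lev b (i + 1)) (hb' : E'.Lev b j) (hp : b ^ i ∈ V)
    (hres : ∀ r, r < i * (i + 1) → a ^ (i * (i + 1) - r) * b ^ r ∈ V) :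
    Sea E E' V (b ^ i) (i * (i + 1)) (i * j) where
  fd := fd
  one := one
  pV := hp
  e1 := Nat.mul_pos hi (Nat.succ_pos i)
  q1 := Nat.mul_pos hi hj
  lev := End1.Lev.pow E hb i
  fil := (End1.Lev.pow E' hb' i).1
  res := by
    intro r hr
    refine ⟨_, hres r hr, _, End1.Lev.mul E (End1.Lev.pow E ha _) (End1.Lev.pow E hb _), ?_⟩
    obtain ⟨d, hd⟩ : ∃ d, i * (i + 1) = r + d := ⟨i * (i + 1) - r, by omega⟩
    have h1 : i * (i + 1) - r = d := by omega
    rw [h1]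
    have h2 : d * i + r * (i + 1) = i * (i + 1) * i + r := by
      rw [hd]; ring
    rw [h2, Nat.mul_add_mod, Nat.mod_eq_of_lt hr]

theorem iter : IterStmt := by
  intro hLoc hRound F K X A _ _ _ _ _ Q E E' a b i j hi hj ha hb ha' hb' hxy
  obtain ⟨x, y, n, hx, hy, hind⟩ := hxy
  set S : Set A := ({1, b ^ i, a ^ (j + 1), a ^ (i + 1), x, y} : Set A) ∪
    ((fun r : ℕ => a ^ (i * (i + 1) - r) * b ^ r) '' (Set.Iio (i * (i + 1)))) ∪
    ((fun r : ℕ => b ^ ((i + 1) * (j + 1) - r) * a ^ r) '' (Set.Iio ((i + 1) * (j + 1)))) with hS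
  have hfin : S.Finite := by
    rw [hS]
    refine Set.Finite.union (Set.Finite.union (Set.toFinite _) ?_) ?_
    · exact (Set.finite_Iio _).image _
    · exact (Set.finite_Iio _).image _
  set V : Submodule F A := Submodule.span F S with hV
  have fd : FiniteDimensional F V := FiniteDimensional.span_of_finite F hfin
  have hsub : ∀ u ∈ S, u ∈ V := fun u hu => Submodule.subset_span hu
  have one : (1 : A) ∈ V := hsub _ (by rw [hS]; simp)
  have hS1 : Sea E E' V (b ^ i) (i * (i + 1)) (i * j) := by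
    refine sea_make E E' V fd one a b i j hi hj ha hb hb' (hsub _ (by rw [hS]; simp)) ?_
    intro r hr
    apply hsub
    rw [hS]
    exact Or.inl (Or.inr ⟨r, hr, rfl⟩)
  have hS2 : Sea E' E V (a ^ (i + 1)) ((i + 1) * (j + 1)) (i * (i + 1)) := by
    refine ⟨fd, one, hsub _ (by rw [hS]; simp), Nat.mul_pos (Nat.succ_pos i) (Nat.succ_pos j),
      Nat.mul_pos hi (Nat.succ_pos i),
      End1.Lev.pow E' ha' (i + 1), ?_, ?_⟩
    · have := (End1.Lev.pow E ha (i + 1)).1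
      rwa [Nat.mul_comm] at this
    · intro r hr
      refine ⟨b ^ ((i + 1) * (j + 1) - r) * a ^ r, ?_, _,
        End1.Lev.mul E' (End1.Lev.pow E' hb' _) (End1.Lev.pow E' ha' _), ?_⟩
      · apply hsub
        rw [hS]
        exact Or.inr ⟨r, hr, rfl⟩
      · obtain ⟨d, hd⟩ : ∃ d, (i + 1) * (j + 1) = r + d := ⟨(i + 1) * (j + 1) - r, by omega⟩
        have h1 : (i + 1) * (j + 1) - r = d := by omega
        rw [h1]
        have h2 : d * j + r * (j + 1) = (i + 1) * (j + 1) * j + r := by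
          rw [hd]; ring
        rw [h2, Nat.mul_add_mod, Nat.mod_eq_of_lt hr]
  have hL1 := hLoc F K X A Q E E' V (b ^ i) (i * (i + 1)) (i * j) hS1
  have hL2 := hLoc F K X A Q E' E V (a ^ (i + 1)) ((i + 1) * (j + 1)) (i * (i + 1)) hS2
  have hR1 := hRound F K X A Q E E' V (b ^ i) (i * (i + 1)) (i * j) hS1 hL1
  have hR2 := hRound F K X A Q E' E V (a ^ (i + 1)) ((i + 1) * (j + 1)) (i * (i + 1)) hS2 hL2
  have hn1 : 1 ≤ n := by
    rcases Nat.eq_zero_or_pos n with h0 | h0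
    · exfalso
      subst h0
      obtain ⟨cx, rfl⟩ := E.lev0 x hx
      obtain ⟨cy, rfl⟩ := E.lev0 y hy
      rw [LinearIndependent.pair_iff] at hind
      have hh : ∀ c : F, E.c 0 (algebraMap F A c) = c • (1 : K) := by
        intro c
        rw [Algebra.algebraMap_eq_smul_one, map_smul, E.c_one]
      rw [hh, hh] at hind
      by_cases hcx : cx = 0
      · have := (hind 1 0 (by rw [hcx]; simp)).1
        exact one_ne_zero this
      · have := (hind cy (-cx) (by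
          rw [smul_smul, smul_smul, ← add_smul]
          have : cy * cx + -cx * cy = 0 := by ring
          rw [this, zero_smul])).2
        exact hcx (neg_eq_zero.mp this)
    · exact h0
  have h2 : 2 ≤ finrank F (E.L n V) := by
    have hxL : E.c n x ∈ E.L n V := E.mem_L.mpr ⟨x, ⟨hsub _ (by rw [hS]; simp), hx⟩, rfl⟩
    have hyL : E.c n y ∈ E.L n V := E.mem_L.mpr ⟨y, ⟨hsub _ (by rw [hS]; simp), hy⟩, rfl⟩
    have hle : Submodule.span F (Set.range ![E.c n x, E.c n y]) ≤ E.L n V := by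
      rw [Submodule.span_le]
      rintro u ⟨k, rfl⟩
      fin_cases k
      · exact hxL
      · exact hyL
    have := finrank_span_eq_card hind
    have h3 := Submodule.finrank_mono hle
    rw [this] at h3
    simpa using h3
  have hqq : (i * j) * (i * (i + 1)) < (i * (i + 1)) * ((i + 1) * (j + 1)) := by
    have h3 : 0 < i * (i + 1) := Nat.mul_pos hi (Nat.succ_pos i)
    rw [Nat.mul_comm (i * j)]
    apply Nat.mul_lt_mul_of_pos_left _ h3
    nlinarith
  exact two_rounds E E' V _ _ _ _ hS1.e1 hS1.q1 hS2.e1 hS2.q1 fd one hR1 hR2 hqq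
    (start_lemma E E' V _ _ _ hS1 hL1 n hn1 h2)

end Pool.Agent.Q2N.H90
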