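import Pool.Agent.Helper90_Q2N.Stmts

/-! # Locality -/

set_option autoImplicit false

open Module

namespace Pool.Agent.Q2N.H90

variable {F K X A : Type} [Field F] [Field K] [Algebra F K] [Ring A] [Algebra F A]
variable {Q : Poles F K X}

lemma Poles.pol_smul (Q : Poles F K X) (c : F) (f : K) : Q.pol (c • f) ⊆ Q.pol f := by
  rw [Algebra.smul_def]
  intro x hx
  rcases Q.pol_mul _ _ hx with h | h
  · rw [Q.pol_const] at h
    exact absurd h (Set.notMem_empty x)
  · exact h

/-- functions with poles inside `W`. -/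
def Poles.PW (Q : Poles F K X) (W : Set X) : Submodule F K where
  carrier := {f | Q.pol f ⊆ W}
  add_mem' := by
    intro a b ha hb
    exact (Q.pol_add a b).trans (Set.union_subset ha hb)
  zero_mem' := by
    have h := Q.pol_const (0 : F)
    rw [map_zero] at h
    show Q.pol 0 ⊆ W
    rw [h]
    exact Set.empty_subset _
  smul_mem' := by
    intro c f hf
    exact (Q.pol_smul c f).trans hf

lemma Poles.mem_PW (Q : Poles F K X) {W : Set X} {f : K} : f ∈ Q.PW W ↔ Q.pol f ⊆ W := Iff.rfl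

lemma Poles.PW_mono (Q : Poles F K X) {W W' : Set X} (h : W ⊆ W') : Q.PW W ≤ Q.PW W' :=
  fun _ hf => Set.Subset.trans hf h

lemma Poles.PW_mul (Q : Poles F K X) {W W' : Set X} {f g : K} (hf : f ∈ Q.PW W)
    (hg : g ∈ Q.PW W') : f * g ∈ Q.PW (W ∪ W') :=
  (Q.pol_mul f g).trans (Set.union_subset_union hf hg)

lemma Poles.one_PW (Q : Poles F K X) (W : Set X) : (1 : K) ∈ Q.PW W := by
  have h := Q.pol_const (1 : F)
  rw [map_one] at h
  show Q.pol 1 ⊆ W
  rw [h]
  exact Set.empty_subset _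

lemma Poles.of_disjoint (Q : Poles F K X) {W W' : Set X} (h : ∀ x, x ∈ W → x ∈ W' → False) :
    Q.PW W ⊓ Q.PW W' ≤ (1 : Submodule F K) := by
  intro f hf
  obtain ⟨h1, h2⟩ := Submodule.mem_inf.mp hf
  have h0 : Q.pol f = ∅ := by
    rw [Set.eq_empty_iff_forall_notMem]
    intro x hx
    exact h x (h1 hx) (h2 hx)
  obtain ⟨c, hc⟩ := Q.const_of f h0
  rw [Submodule.mem_one]
  exact ⟨c, hc.symm⟩

namespace End1

variable (E : End1 Q A)

lemma pol_phi_pow (k : ℕ) (f : K) (x : X) :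
    x ∈ Q.pol ((E.phi ^ k) f) ↔ (E.T ^ (k : ℤ)) x ∈ Q.pol f := by
  induction k generalizing f x with
  | zero => simp
  | succ k ih =>
    have h1 : (E.phi ^ (k + 1)) f = (E.phi ^ k) (E.phi f) := by
      rw [pow_succ]
      rfl
    have h2 : (E.T ^ ((k + 1 : ℕ) : ℤ)) x = E.T ((E.T ^ (k : ℤ)) x) := by
      have : ((k + 1 : ℕ) : ℤ) = 1 + (k : ℤ) := by push_cast; ring
      rw [this, zpow_add, zpow_one]
      rfl
    rw [h1, ih, E.pol_phi, h2]

/-- the points whose translate by some `t` in `[a, b]` is in `S`. -/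
def Win (S : Set X) (a b : ℤ) : Set X := {u | ∃ t : ℤ, a ≤ t ∧ t ≤ b ∧ (E.T ^ t) u ∈ S}

lemma Win_mono {S : Set X} {a b a' b' : ℤ} (h1 : a' ≤ a) (h2 : b ≤ b') :
    E.Win S a b ⊆ E.Win S a' b' := by
  rintro u ⟨t, ha, hb, hu⟩
  exact ⟨t, h1.trans ha, hb.trans h2, hu⟩

lemma ph_PW {S : Set X} {a b : ℤ} {U : Submodule F K} (h : U ≤ Q.PW (E.Win S a b)) (k : ℕ) :
    E.ph k U ≤ Q.PW (E.Win S (a + k) (b + k)) := by
  intro f hf
  obtain ⟨g, hg, rfl⟩ := E.mem_ph.mp hf
  intro u hu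
  rw [E.pol_phi_pow] at hu
  obtain ⟨t, ha, hb, ht⟩ := h hg hu
  refine ⟨t + k, by linarith, by linarith, ?_⟩
  rw [zpow_add]
  exact ht

lemma exists_J (S : Set X) (hS : S.Finite) : ∃ J : ℕ, ∀ (u : X) (t t' : ℤ),
    (E.T ^ t) u ∈ S → (E.T ^ t') u ∈ S → |t - t'| ≤ J := by
  classical
  have key : ∀ s : X × X, ∃ d : ℕ, ∀ t : ℤ, (E.T ^ t) s.1 = s.2 → |t| ≤ d := by
    rintro ⟨s, s'⟩
    by_cases h : ∃ t : ℤ, (E.T ^ t) s = s'
    · obtain ⟨t0, ht0⟩ := h
      refine ⟨t0.natAbs, ?_⟩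
      intro t ht
      have h1 : (E.T ^ (t - t0)) s' = s' := by
        conv_lhs => rw [← ht0]
        rw [← Equiv.Perm.mul_apply, ← zpow_add, sub_add_cancel]
        exact ht
      have h2 : t - t0 = 0 := by
        by_contra hne
        exact E.free _ _ hne h1
      have h3 : t = t0 := by linarith
      rw [h3, Int.natCast_natAbs]
    · exact ⟨0, fun t ht => absurd ⟨t, ht⟩ h⟩
  choose d hd using key
  have hfin := hS.prod hS
  obtain ⟨J, hJ⟩ := (hfin.image d).bddAbove
  refine ⟨J, ?_⟩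
  intro u t t' h1 h2
  have h3 : (E.T ^ (t - t')) ((E.T ^ t') u) = (E.T ^ t) u := by
    rw [← Equiv.Perm.mul_apply, ← zpow_add, sub_add_cancel]
  have h4 := hd ((E.T ^ t') u, (E.T ^ t) u) (t - t') h3
  have h5 : d ((E.T ^ t') u, (E.T ^ t) u) ≤ J :=
    hJ ⟨((E.T ^ t') u, (E.T ^ t) u), ⟨h2, h1⟩, rfl⟩
  exact h4.trans (by exact_mod_cast h5)

/-- sums of spread translates. -/
noncomputable def ZZ (Y : Submodule F K) (d : ℕ) : ℕ → Submodule F K
  | 0 => 1
  | M + 1 => ZZ Y d M ⊔ E.ph (d * M) Y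

lemma ZZ_zero (Y : Submodule F K) (d : ℕ) : E.ZZ Y d 0 = 1 := rfl

lemma ZZ_succ (Y : Submodule F K) (d M : ℕ) :
    E.ZZ Y d (M + 1) = E.ZZ Y d M ⊔ E.ph (d * M) Y := rfl

instance fd_ph (k : ℕ) (U : Submodule F K) [FiniteDimensional F U] :
    FiniteDimensional F (E.ph k U) := by
  unfold ph
  infer_instance

lemma fd_one : FiniteDimensional F (1 : Submodule F K) := by
  rw [Submodule.one_eq_span]
  infer_instance

lemma finrank_one : finrank F (1 : Submodule F K) = 1 := by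
  rw [Submodule.one_eq_span]
  exact finrank_span_singleton one_ne_zero

lemma fd_ZZ (Y : Submodule F K) [FiniteDimensional F Y] (d M : ℕ) :
    FiniteDimensional F (E.ZZ Y d M) := by
  induction M with
  | zero => exact fd_one
  | succ M ih =>
    rw [ZZ_succ]
    have := ih
    infer_instance

lemma one_le_ZZ (Y : Submodule F K) (d M : ℕ) : (1 : Submodule F K) ≤ E.ZZ Y d M := by
  induction M with
  | zero => exact le_refl _
  | succ M ih => exact ih.trans le_sup_left

/-- windows of the sums of translates. -/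
lemma ZZ_PW {S : Set X} {a b : ℤ} {Y : Submodule F K} (h : Y ≤ Q.PW (E.Win S a b)) (d M : ℕ) :
    E.ZZ Y d M ≤ Q.PW {u | ∃ i : ℕ, i < M ∧ u ∈ E.Win S (a + (d * i : ℕ)) (b + (d * i : ℕ))} := by
  induction M with
  | zero =>
    unfold ZZ
    rw [Submodule.one_le]
    exact Q.one_PW _
  | succ M ih =>
    unfold ZZ
    refine sup_le (ih.trans (Q.PW_mono ?_)) ((E.ph_PW h (d * M)).trans (Q.PW_mono ?_))
    · rintro u ⟨i, hi, hu⟩
      exact ⟨i, Nat.lt_succ_of_lt hi, hu⟩
    · intro u hu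
      exact ⟨M, Nat.lt_succ_self M, hu⟩

lemma finrank_ZZ {S : Set X} {a b : ℤ} {J : ℕ} (hJ : ∀ (u : X) (t t' : ℤ),
    (E.T ^ t) u ∈ S → (E.T ^ t') u ∈ S → |t - t'| ≤ J)
    {Y : Submodule F K} [FiniteDimensional F Y] (h1 : (1 : Submodule F K) ≤ Y)
    (h : Y ≤ Q.PW (E.Win S a b)) (d : ℕ) (hd : b - a + J < d) (M : ℕ) :
    1 + M * (finrank F Y - 1) ≤ finrank F (E.ZZ Y d M) := by
  induction M with
  | zero =>
    rw [ZZ_zero, finrank_one]
    omega
  | succ M ih =>
    have hfd := E.fd_ZZ Y d M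
    have hsum := Submodule.finrank_sup_add_finrank_inf_eq (E.ZZ Y d M) (E.ph (d * M) Y)
    have hinf : finrank F (E.ZZ Y d M ⊓ E.ph (d * M) Y : Submodule F K) ≤ 1 := by
      have hle : E.ZZ Y d M ⊓ E.ph (d * M) Y ≤ (1 : Submodule F K) := by
        refine (inf_le_inf (E.ZZ_PW h d M) (E.ph_PW h (d * M))).trans (Q.of_disjoint ?_)
        rintro u ⟨i, hi, t, ht1, ht2, ht3⟩ ⟨t', ht1', ht2', ht3'⟩
        have h3 := hJ u t' t ht3' ht3
        have h4 : t' - t ≤ J := (le_abs_self _).trans h3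
        have h5 : (d : ℤ) * i + d ≤ d * M := by
          have : (i : ℤ) + 1 ≤ M := by exact_mod_cast hi
          have hd0 : (0 : ℤ) ≤ d := Int.natCast_nonneg d
          nlinarith
        push_cast at ht2 ht1'
        linarith
      have := fd_one (F := F) (K := K)
      exact (Submodule.finrank_mono hle).trans (le_of_eq finrank_one)
    have hph := E.finrank_ph (d * M) Y
    have hY : 1 ≤ finrank F Y := by
      have := Submodule.finrank_mono h1
      rwa [finrank_one] at this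
    have e1 : finrank F (E.ZZ Y d (M + 1)) =
        finrank F (E.ZZ Y d M ⊔ E.ph (d * M) Y : Submodule F K) := rfl
    rw [e1]
    have e2 : (M + 1) * (finrank F Y - 1) = M * (finrank F Y - 1) + (finrank F Y - 1) := by ring
    rw [e2]
    omega

/-- the block: leading space of `X ^ N`. -/
noncomputable def Xi (n : ℕ) (U : Submodule F K) : ℕ → Submodule F K
  | 0 => 1
  | N + 1 => U * E.ph n (Xi n U N)

lemma Xi_zero (n : ℕ) (U : Submodule F K) : E.Xi n U 0 = 1 := rfl

lemma Xi_succ (n : ℕ) (U : Submodule F K) (N : ℕ) :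
    E.Xi n U (N + 1) = U * E.ph n (E.Xi n U N) := rfl

lemma fd_mul (U W : Submodule F K) [hU : FiniteDimensional F U] [hW : FiniteDimensional F W] :
    FiniteDimensional F (U * W : Submodule F K) := by
  have h1 : U.FG := (Submodule.fg_iff_finiteDimensional U).mpr hU
  have h2 : W.FG := (Submodule.fg_iff_finiteDimensional W).mpr hW
  exact (Submodule.fg_iff_finiteDimensional _).mp (h1.mul h2)

lemma fd_Xi (n : ℕ) (U : Submodule F K) [FiniteDimensional F U] (N : ℕ) :
    FiniteDimensional F (E.Xi n U N) := by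
  induction N with
  | zero => exact fd_one
  | succ N ih =>
    rw [Xi_succ]
    have := ih
    exact fd_mul _ _

lemma Xi_ne_bot (n : ℕ) (U : Submodule F K) (hU : U ≠ ⊥) (N : ℕ) : E.Xi n U N ≠ ⊥ := by
  induction N with
  | zero =>
    unfold Xi
    intro h
    have : (1 : K) ∈ (1 : Submodule F K) := Submodule.one_le.mp le_rfl
    rw [h, Submodule.mem_bot] at this
    exact one_ne_zero this
  | succ N ih =>
    unfold Xi
    obtain ⟨x, hx, hx0⟩ := Submodule.exists_mem_ne_zero_of_ne_bot hU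
    obtain ⟨y, hy, hy0⟩ := Submodule.exists_mem_ne_zero_of_ne_bot (E.ph_ne_bot (k := n) ih)
    intro h
    have := Submodule.mul_mem_mul hx hy
    rw [h, Submodule.mem_bot] at this
    exact mul_ne_zero hx0 hy0 this

lemma finrank_Xi (n : ℕ) (U : Submodule F K) [FiniteDimensional F U] (hU : U ≠ ⊥) (N : ℕ) :
    N * (finrank F U - 1) + 1 ≤ finrank F (E.Xi n U N) := by
  induction N with
  | zero =>
    rw [Xi_zero, finrank_one]
    omega
  | succ N ih =>
    have h1 := E.fd_Xi n U N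
    have h2 := Q.dim_mul U (E.ph n (E.Xi n U N)) inferInstance inferInstance hU
      (E.ph_ne_bot (E.Xi_ne_bot n U hU N))
    rw [E.finrank_ph] at h2
    have e1 : finrank F (E.Xi n U (N + 1)) =
      finrank F (U * E.ph n (E.Xi n U N) : Submodule F K) := rfl
    rw [e1]
    have hpos : 1 ≤ finrank F U := by
      rw [Nat.one_le_iff_ne_zero]
      intro h0
      exact hU (Submodule.finrank_eq_zero.mp h0)
    have e2 : (N + 1) * (finrank F U - 1) = N * (finrank F U - 1) + (finrank F U - 1) := by ring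
    rw [e2]
    omega

lemma Xi_PW {S : Set X} {c : ℕ} {U : Submodule F K} (n : ℕ)
    (h : U ≤ Q.PW (E.Win S (-(c : ℤ)) c)) (N : ℕ) :
    E.Xi n U N ≤ Q.PW (E.Win S (-(c : ℤ)) ((N * n : ℕ) + c)) := by
  induction N with
  | zero =>
    unfold Xi
    rw [Submodule.one_le]
    exact Q.one_PW _
  | succ N ih =>
    unfold Xi
    rw [Submodule.mul_le]
    intro f hf g hg
    have hf' := h hf
    have hg' := E.ph_PW ih n hg
    refine Q.PW_mono ?_ (Q.PW_mul hf' hg')
    rintro u (hu | hu)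
    · refine E.Win_mono le_rfl ?_ hu
      have : (0 : ℤ) ≤ ((N + 1) * n : ℕ) := Int.natCast_nonneg _
      linarith
    · refine E.Win_mono ?_ ?_ hu
      · have : (0 : ℤ) ≤ (n : ℤ) := Int.natCast_nonneg _
        linarith
      · push_cast
        linarith

lemma Xi_le (n z : ℕ) (V : Submodule F A) (N : ℕ) :
    E.Xi n (E.L n (V ^ z)) N ≤ E.L (N * n) (V ^ (N * z)) := by
  induction N with
  | zero =>
    unfold Xi
    rw [Submodule.one_le, E.mem_L]
    refine ⟨1, ⟨?_, ?_⟩, ?_⟩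
    · rw [Nat.zero_mul, pow_zero]
      exact Submodule.one_le.mp le_rfl
    · rw [Nat.zero_mul]
      exact E.one_mem_Fil
    · rw [Nat.zero_mul]
      exact E.c_one
  | succ N ih =>
    have e1 : (N + 1) * n = n + N * n := by ring
    have e2 : V ^ ((N + 1) * z) = V ^ z * V ^ (N * z) := by
      rw [← pow_add]
      congr 1
      ring
    rw [e1, e2]
    unfold Xi
    refine le_trans ?_ (E.L_mul_le n (N * n) (V ^ z) (V ^ (N * z)))
    exact mul_le_mul_right (Submodule.map_mono ih) _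

end End1

end Pool.Agent.Q2N.H90
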