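import Pool.Agent.Helper90_Q2N.Loc

/-! # Locality, main step -/

set_option autoImplicit false

open Module

namespace Pool.Agent.Q2N.H90

variable {F K X A : Type} [Field F] [Field K] [Algebra F K] [Ring A] [Algebra F A]
variable {Q : Poles F K X}

namespace End1

variable (E : End1 Q A)

lemma exists_Fil (V : Submodule F A) [FiniteDimensional F V] : ∃ P, V ≤ E.Fil P := by
  classical
  obtain ⟨s, hs⟩ := (Submodule.fg_iff_finiteDimensional V).mpr inferInstance
  choose f hf using E.bdd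
  refine ⟨s.sup f, ?_⟩
  rw [← hs, Submodule.span_le]
  intro x hx
  exact E.Fil_mono (Finset.le_sup hx) (hf x)

lemma pow_le_pow_of_one {V : Submodule F A} (h1 : (1 : A) ∈ V) {i j : ℕ} (h : i ≤ j) :
    V ^ i ≤ V ^ j := by
  obtain ⟨k, rfl⟩ := Nat.exists_eq_add_of_le h
  rw [pow_add]
  intro x hx
  have h2 : (1 : A) ∈ V ^ k := by
    have := Submodule.pow_mem_pow V h1 k
    rwa [one_pow] at this
  have := Submodule.mul_mem_mul hx h2
  rwa [mul_one] at this

/-- the inverse of the leading coefficient of `p ^ k` has its poles in `[0, k e]`. -/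
lemma inv_PW {S : Set X} {p : A} {e : ℕ} (hp : E.Lev p e)
    (hS : Q.pol (E.c e p)⁻¹ ⊆ S) (k : ℕ) :
    (E.c (k * e) (p ^ k))⁻¹ ∈ Q.PW (E.Win S 0 ((k * e : ℕ) : ℤ)) := by
  induction k with
  | zero =>
    rw [Nat.zero_mul, pow_zero, E.c_one, inv_one]
    exact Q.one_PW _
  | succ k ih =>
    have e1 : (k + 1) * e = e + k * e := by ring
    rw [e1, pow_succ', E.c_mul hp.1 (E.pow_mem_Fil hp.1 k), mul_inv]
    have h1 : (E.c e p)⁻¹ ∈ Q.PW (E.Win S 0 0) := by
      intro u hu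
      exact ⟨0, le_rfl, le_rfl, hS hu⟩
    have h2 : ((E.phi ^ e) (E.c (k * e) (p ^ k)))⁻¹ ∈
        Q.PW (E.Win S (0 + (e : ℤ)) (((k * e : ℕ) : ℤ) + e)) := by
      rw [← map_inv₀]
      have := E.ph_PW (S := S) (a := 0) (b := ((k * e : ℕ) : ℤ))
        (U := Submodule.span F {(E.c (k * e) (p ^ k))⁻¹}) ?_ e
      · apply this
        rw [E.mem_ph]
        exact ⟨_, Submodule.mem_span_singleton_self _, rfl⟩
      · rw [Submodule.span_le]
        intro x hx
        rw [Set.mem_singleton_iff.mp hx]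
        exact ih
    refine Q.PW_mono ?_ (Q.PW_mul h1 h2)
    rintro u (hu | hu)
    · exact E.Win_mono le_rfl (Int.natCast_nonneg _) hu
    · refine E.Win_mono ?_ ?_ hu
      · linarith [Int.natCast_nonneg (n := e)]
      · push_cast
        linarith

/-- the leading coefficient of a word with one block. -/
lemma word {p : A} {e : ℕ} (hp : p ∈ E.Fil e) {B : ℕ} {y : A} (hy : y ∈ E.Fil B)
    {x : A} {l : ℕ} (hx : x ∈ E.Fil l) (a b : ℕ) :
    p ^ a * (y * (p ^ b * x)) ∈ E.Fil (a * e + (B + (b * e + l))) ∧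
    E.c (a * e + (B + (b * e + l))) (p ^ a * (y * (p ^ b * x))) =
      E.c (a * e) (p ^ a) * (E.phi ^ (a * e)) (E.c B y *
        (E.phi ^ B) (E.c (b * e + l) (p ^ b * x))) := by
  have h1 := E.mul_mem_Fil (E.pow_mem_Fil hp b) hx
  have h2 := E.mul_mem_Fil hy h1
  have h3 := E.mul_mem_Fil (E.pow_mem_Fil hp a) h2
  refine ⟨h3, ?_⟩
  rw [E.c_mul (E.pow_mem_Fil hp a) h2, E.c_mul hy h1]

end End1

open End1

set_option maxHeartbeats 1000000 in
theorem loc : LocStmt := by
  intro F K X A _ _ _ _ _ Q E E' V p e q hs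
  have hfd := hs.fd
  obtain ⟨P, hP⟩ := E.exists_Fil V
  obtain ⟨R, hR⟩ := E'.exists_Fil V
  obtain ⟨S0, hS0, C, hC⟩ := E.win V hs.fd
  set S : Set X := S0 ∪ Q.pol (E.c e p)⁻¹ with hS
  have hSf : S.Finite := hS0.union (Q.fin _)
  obtain ⟨J, hJ⟩ := E.exists_J S hSf
  refine ⟨P, R, C, J, hP, hR, ?_⟩
  intro N z n w s hN heN hz hn hd hw r hr
  obtain ⟨x, hxV, l, hxl, hlr⟩ := hs.res r hr
  have hlP : l ≤ P := by
    by_contra hcon
    exact hxl.2 (hP hxV l (lt_of_not_ge hcon))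
  refine ⟨l, hlP, hlr, ?_⟩
  intro m Z hm hZ
  obtain ⟨N', hNdef⟩ := heN
  obtain ⟨k, hk⟩ : ∃ k, k = N' * n := ⟨_, rfl⟩
  have hke : k * e = N * n := by rw [hk, hNdef]; ring
  -- the leading space `U` and the block
  obtain ⟨U, hU⟩ : ∃ U, U = E.L n (V ^ z) := ⟨_, rfl⟩
  rw [← hU] at hd ⊢
  have hVz : FiniteDimensional F (V ^ z : Submodule F A) := by
    have h1 : V.FG := (Submodule.fg_iff_finiteDimensional V).mpr hs.fd
    exact (Submodule.fg_iff_finiteDimensional _).mp (h1.pow z)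
  have hUfd : FiniteDimensional F U := by rw [hU]; exact E.fd_L n (V ^ z)
  have hUne : U ≠ ⊥ := by
    intro h0
    rw [h0, finrank_bot] at hd
    omega
  -- windows of `U`
  have hUW : U ≤ Q.PW (E.Win S (-((C * z : ℕ) : ℤ)) ((C * z : ℕ) : ℤ)) := by
    intro f hf u hu
    rw [hU] at hf
    obtain ⟨y, ⟨hyV, _⟩, rfl⟩ := E.mem_L.mp hf
    obtain ⟨t, ht, htS⟩ := hC z hz y hyV n u hu
    rw [abs_le] at ht
    push_cast
    exact ⟨t, ht.1, ht.2, Or.inl htS⟩
  have hBfd0 : FiniteDimensional F (E.Xi n U N) := E.fd_Xi n U N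
  have hBW0 := E.Xi_PW n hUW N
  have hBle0 : E.Xi n U N ≤ E.L (N * n) (V ^ (N * z)) := by rw [hU]; exact E.Xi_le n z V N
  have hBdim0 := E.finrank_Xi n U hUne N
  obtain ⟨B, hB⟩ : ∃ B, B = E.Xi n U N := ⟨_, rfl⟩
  rw [← hB] at hBfd0 hBW0 hBle0 hBdim0
  have hBfd := hBfd0
  have hBW := hBW0
  have hBle := hBle0
  have hBdim := hBdim0
  have hπ00 : E.c (k * e) (p ^ k) ≠ 0 := (End1.Lev.pow E hs.lev k).2
  have hπW0 := E.inv_PW (S := S) hs.lev (fun u hu => Or.inr hu) k
  obtain ⟨π, hπ⟩ : ∃ π, π = E.c (k * e) (p ^ k) := ⟨_, rfl⟩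
  rw [← hπ] at hπ00 hπW0
  have hπ0 := hπ00
  have hπW := hπW0
  -- the space `Y`
  obtain ⟨Y, hY⟩ : ∃ Y : Submodule F K, Y = 1 ⊔ B.map (LinearMap.mulLeft F π⁻¹) := ⟨_, rfl⟩
  have hYfd : FiniteDimensional F Y := by
    have h1 := fd_one (F := F) (K := K)
    rw [hY]
    infer_instance
  have h1Y : (1 : Submodule F K) ≤ Y := by rw [hY]; exact le_sup_left
  have hYdim : N * (finrank F U - 1) + 1 ≤ finrank F Y := by
    have hinj : Function.Injective (LinearMap.mulLeft F π⁻¹) := by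
      intro a b hab
      exact mul_left_cancel₀ (inv_ne_zero hπ0) hab
    have e1 : finrank F (B.map (LinearMap.mulLeft F π⁻¹)) = finrank F B :=
      (LinearEquiv.finrank_eq (Submodule.equivMapOfInjective _ hinj B)).symm
    have e2 : finrank F (B.map (LinearMap.mulLeft F π⁻¹)) ≤ finrank F Y :=
      Submodule.finrank_mono (by rw [hY]; exact le_sup_right)
    rw [e1] at e2
    exact hBdim.trans e2
  have hYW : Y ≤ Q.PW (E.Win S (-((C * z : ℕ) : ℤ)) (((N * n : ℕ) : ℤ) + (C * z : ℕ))) := by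
    rw [hY]
    refine sup_le ?_ ?_
    · rw [Submodule.one_le]
      exact Q.one_PW _
    · rintro _ ⟨f, hf, rfl⟩
      rw [LinearMap.mulLeft_apply]
      refine Q.PW_mono ?_ (Q.PW_mul hπW (hBW hf))
      rintro u (hu | hu)
      · refine E.Win_mono ?_ ?_ hu
        · have : (0 : ℤ) ≤ ((C * z : ℕ) : ℤ) := Int.natCast_nonneg _
          linarith
        · rw [hke]
          have : (0 : ℤ) ≤ ((C * z : ℕ) : ℤ) := Int.natCast_nonneg _
          linarith
      · exact hu
  have hdim := E.finrank_ZZ hJ h1Y hYW (e * w) (by push_cast; zify at hw; linarith) (s / w + 1)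
  -- the common factor
  obtain ⟨G, hG⟩ : ∃ G, G = E.c ((s + k) * e + l) (p ^ (s + k) * x) := ⟨_, rfl⟩
  have hG0 : G ≠ 0 := by
    rw [hG]
    exact (End1.Lev.mul E (End1.Lev.pow E hs.lev (s + k)) hxl).2
  have hlev : e * s + N * n + l = (s + k) * e + l := by
    rw [← hke]; ring
  obtain ⟨T, hT⟩ : ∃ T, T = V ^ Z ⊓ E'.Fil m := ⟨_, rfl⟩
  rw [← hT]
  have hnP : n ≤ P * z := by
    by_contra hcon
    apply hUne
    rw [eq_bot_iff]
    intro f hf
    rw [hU] at hf
    obtain ⟨y, ⟨hyV, _⟩, rfl⟩ := E.mem_L.mp hf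
    have := E.pow_le_Fil hP z hyV n (by rw [Nat.mul_comm]; exact lt_of_not_ge hcon)
    rw [this]
    exact Submodule.zero_mem _
  have hkP : k ≤ N * P * z := by
    rw [hk, hNdef]
    calc N' * n ≤ N' * (P * z) := Nat.mul_le_mul_left _ hnP
      _ ≤ e * (N' * (P * z)) := Nat.le_mul_of_pos_left _ hs.e1
      _ = e * N' * P * z := by ring
  -- words are in `T`
  have hone : ∀ i j : ℕ, i ≤ j → V ^ i ≤ V ^ j := fun i j h => pow_le_pow_of_one hs.one h
  have hword1 : p ^ (s + k) * x ∈ T := by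
    rw [hT]
    refine Submodule.mem_inf.mpr ⟨?_, ?_⟩
    · have h1 : p ^ (s + k) * x ∈ V ^ (s + k + 1) := by
        rw [pow_succ]
        exact Submodule.mul_mem_mul (Submodule.pow_mem_pow V hs.pV _) hxV
      refine hone _ _ ?_ h1
      have : N * P * z + 1 ≤ (N + N * P + 1) * z := by nlinarith
      omega
    · have h1 := E'.mul_mem_Fil (E'.pow_mem_Fil hs.fil (s + k)) (hR hxV)
      refine E'.Fil_mono ?_ h1
      have h2 : (s + k) * q + R ≤ q * s + (N * R + R + q * N * P) * z := by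
        have h3 : k * q ≤ N * P * z * q := Nat.mul_le_mul_right _ hkP
        have h4 : R ≤ R * z := Nat.le_mul_of_pos_right _ hz
        have h5 : (0 : ℕ) ≤ N * R * z := Nat.zero_le _
        nlinarith
      omega
  have hGL : G ∈ E.L (e * s + N * n + l) T := by
    rw [E.mem_L, hlev, hG]
    exact ⟨_, ⟨hword1, E.mul_mem_Fil (E.pow_mem_Fil hs.lev.1 _) hxl.1⟩, rfl⟩
  -- the translates
  have htr : ∀ a, a ≤ s → ∀ f ∈ Y, G * (E.phi ^ (a * e)) f ∈ E.L (e * s + N * n + l) T := by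
    intro a ha f hf
    rw [hY] at hf
    obtain ⟨f1, hf1, f2, hf2, rfl⟩ := Submodule.mem_sup.mp hf
    rw [map_add, mul_add]
    refine Submodule.add_mem _ ?_ ?_
    · obtain ⟨c0, rfl⟩ := Submodule.mem_one.mp hf1
      rw [AlgEquiv.commutes, mul_comm G, ← Algebra.smul_def]
      exact Submodule.smul_mem _ _ hGL
    · obtain ⟨g, hg, rfl⟩ := hf2
      rw [LinearMap.mulLeft_apply]
      obtain ⟨y, ⟨hyV, hyF⟩, hyc⟩ := E.mem_L.mp (hBle hg)
      obtain ⟨b, rfl⟩ := Nat.exists_eq_add_of_le ha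
      have hw1 := E.word hs.lev.1 hyF hxl.1 a b
      have hpk : p ^ k ∈ E.Fil (N * n) := by
        rw [← hke]
        exact E.pow_mem_Fil hs.lev.1 k
      have hw2 := E.word hs.lev.1 hpk hxl.1 a b
      have e1 : a * e + (N * n + (b * e + l)) = e * (a + b) + N * n + l := by ring
      have e2 : p ^ a * (p ^ k * (p ^ b * x)) = p ^ (a + b + k) * x := by
        rw [← mul_assoc (p ^ k), ← pow_add, ← mul_assoc, ← pow_add]
        congr 2
        ring
      have e3 : G = E.c (a * e) (p ^ a) * (E.phi ^ (a * e)) (π *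
          (E.phi ^ (N * n)) (E.c (b * e + l) (p ^ b * x))) := by
        rw [hG, ← hlev, ← e1, ← e2, hw2.2, hπ, hke]
      have e4 : G * (E.phi ^ (a * e)) (π⁻¹ * g) =
          E.c (e * (a + b) + N * n + l) (p ^ a * (y * (p ^ b * x))) := by
        rw [← e1, hw1.2, hyc, e3, mul_assoc, ← map_mul]
        congr 2
        field_simp
      rw [e4, E.mem_L, hT]
      refine ⟨_, ⟨Submodule.mem_inf.mpr ⟨?_, ?_⟩, ?_⟩, rfl⟩
      · have h1 : p ^ a * (y * (p ^ b * x)) ∈ V ^ (a + (N * z + (b + 1))) := by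
          rw [pow_add, pow_add, pow_succ]
          exact Submodule.mul_mem_mul (Submodule.pow_mem_pow V hs.pV _)
            (Submodule.mul_mem_mul hyV
              (Submodule.mul_mem_mul (Submodule.pow_mem_pow V hs.pV _) hxV))
        refine hone _ _ ?_ h1
        have : N * z + 1 ≤ (N + N * P + 1) * z := by nlinarith
        omega
      · have h1 := E'.mul_mem_Fil (E'.pow_mem_Fil hs.fil a) (E'.mul_mem_Fil
          (E'.pow_le_Fil hR (N * z) hyV)
          (E'.mul_mem_Fil (E'.pow_mem_Fil hs.fil b) (hR hxV)))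
        refine E'.Fil_mono ?_ h1
        have h4 : R ≤ R * z := Nat.le_mul_of_pos_right _ hz
        have h5 : (0 : ℕ) ≤ q * N * P * z := Nat.zero_le _
        have h6 : a * q + (N * z * R + (b * q + R)) ≤
            q * (a + b) + (N * R + R + q * N * P) * z := by nlinarith
        omega
      · rw [← e1]
        exact hw1.1
  -- the sum of translates
  have hZZ : ∀ M, M ≤ s / w + 1 → (E.ZZ Y (e * w) M).map (LinearMap.mulLeft F G) ≤
      E.L (e * s + N * n + l) T := by
    intro M hM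
    induction M with
    | zero =>
      rw [E.ZZ_zero]
      rintro _ ⟨f, hf, rfl⟩
      obtain ⟨c0, rfl⟩ := Submodule.mem_one.mp hf
      rw [LinearMap.mulLeft_apply, mul_comm G, ← Algebra.smul_def]
      exact Submodule.smul_mem _ _ hGL
    | succ M ih =>
      rw [E.ZZ_succ, Submodule.map_sup]
      refine sup_le (ih (by omega)) ?_
      rintro _ ⟨f, hf, rfl⟩
      obtain ⟨g, hg, rfl⟩ := E.mem_ph.mp hf
      rw [LinearMap.mulLeft_apply]
      have e1 : e * w * M = (w * M) * e := by ring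
      rw [e1]
      refine htr (w * M) ?_ g hg
      have : M ≤ s / w := by omega
      calc w * M ≤ w * (s / w) := Nat.mul_le_mul_left _ this
        _ ≤ s := Nat.mul_div_le s w
  have hTfd : FiniteDimensional F T := by
    rw [hT]
    have h1 : V.FG := (Submodule.fg_iff_finiteDimensional V).mpr hs.fd
    have h2 : FiniteDimensional F (V ^ Z : Submodule F A) :=
      (Submodule.fg_iff_finiteDimensional _).mp (h1.pow Z)
    exact Submodule.finiteDimensional_of_le (inf_le_left : V ^ Z ⊓ E'.Fil m ≤ V ^ Z)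
  have hinjG : Function.Injective (LinearMap.mulLeft F G) := by
    intro a b hab
    exact mul_left_cancel₀ hG0 hab
  have hZfd := E.fd_ZZ Y (e * w) (s / w + 1)
  have hLfd : FiniteDimensional F (E.L (e * s + N * n + l) T) := E.fd_L _ T
  have h1 : finrank F (E.ZZ Y (e * w) (s / w + 1)) ≤ finrank F (E.L (e * s + N * n + l) T) := by
    have e1 : finrank F ((E.ZZ Y (e * w) (s / w + 1)).map (LinearMap.mulLeft F G)) =
        finrank F (E.ZZ Y (e * w) (s / w + 1)) :=
      (LinearEquiv.finrank_eq (Submodule.equivMapOfInjective _ hinjG _)).symm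
    rw [← e1]
    exact Submodule.finrank_mono (hZZ _ le_rfl)
  refine le_trans ?_ (hdim.trans h1)
  have h2 : N * (finrank F U - 1) ≤ finrank F Y - 1 := by omega
  have h3 := Nat.mul_le_mul_left (s / w + 1) h2
  omega

end Pool.Agent.Q2N.H90
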